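import Mathlib

/-!
Quantum verifiers with access to a classical oracle.
-/

namespace Pool.Agent.MP_36f78e_lc.H24.Cl

open Matrix

/-- A gate on the wires `α`: a matrix on all qubits, or an oracle call given by a list of input
wires and an answer wire. -/
abbrev Gate (α : Type) : Type := Matrix (α → Bool) (α → Bool) ℂ ⊕ (List α × α)

/-- The action of a gate on a vector of amplitudes.  An oracle call adds, modulo two, the value of
`A` on the string written on the input wires to the answer wire. -/
def act {α : Type} [Fintype α] [DecidableEq α] (A : List Bool → Bool) :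
    Gate α → ((α → Bool) → ℂ) → (α → Bool) → ℂ
  | Sum.inl U, v => U *ᵥ v
  | Sum.inr (l, t), v => fun y => v (Function.update y t (xor (y t) (A (l.map y))))

/-- A verifier circuit for one fixed input: `p` witness qubits, `q` ancilla qubits, a list of
gates, and the accepting outcomes of the final measurement in the computational basis. -/
structure Verifier where
  p : ℕ
  q : ℕ
  gates : List (Gate (Fin p ⊕ Fin q))
  acc : Finset (Fin p ⊕ Fin q → Bool)

/-- Matrices are unitary, and the answer wire of an oracle call is not an input wire. -/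
def Verifier.Valid (V : Verifier) : Prop :=
  (∀ U, Sum.inl U ∈ V.gates → U ∈ unitaryGroup (Fin V.p ⊕ Fin V.q → Bool) ℂ) ∧
    ∀ l t, Sum.inr (l, t) ∈ V.gates → t ∉ l

/-- The number of oracle calls. -/
def Verifier.queries (V : Verifier) : ℕ := V.gates.countP Sum.isRight

/-- The acceptance probability on the witness `w`: the ancillas start in state zero and the gates
are applied in the order of the list. -/
noncomputable def Verifier.accProb (V : Verifier) (A : List Bool → Bool)
    (w : (Fin V.p → Bool) → ℂ) : ℝ :=
  ∑ z ∈ V.acc, ‖V.gates.foldl (fun v g => act A g v) (fun y =>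
    if ∀ j, y (Sum.inr j) = false then w (fun i => y (Sum.inl i)) else 0) z‖ ^ 2

/-- Unit vectors. -/
def IsState {p : ℕ} (w : (Fin p → Bool) → ℂ) : Prop := ∑ y, ‖w y‖ ^ 2 = 1

/-- The subset state of `S`. -/
noncomputable def subsetState {p : ℕ} (S : Finset (Fin p → Bool)) : (Fin p → Bool) → ℂ :=
  fun y => if y ∈ S then 1 / (√S.card : ℝ) else 0

/-- A Hadamard gate on each of the `n` witness qubits, the identity on the two ancillas. -/
noncomputable def hadAll (n : ℕ) : Matrix (Fin n ⊕ Fin 2 → Bool) (Fin n ⊕ Fin 2 → Bool) ℂ :=
  fun x y => if ∀ j, x (Sum.inr j) = y (Sum.inr j) then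
    ∏ i, (if x (Sum.inl i) = true ∧ y (Sum.inl i) = true then -1 else 1) / (√2 : ℝ) else 0

/-- The two-query test.  With witness `y` and ancillas `a, b`: add `A (b y)` to `a`, apply Hadamard
gates to the witness, add `A (a y)` to `b`, accept when `a = b = 1`. -/
noncomputable def test (n : ℕ) : Verifier where
  p := n
  q := 2
  gates := [Sum.inr (Sum.inr 1 :: List.ofFn Sum.inl, Sum.inr 0), Sum.inl (hadAll n),
    Sum.inr (Sum.inr 0 :: List.ofFn Sum.inl, Sum.inr 1)]
  acc := Finset.univ.filter fun z => z (Sum.inr 0) = true ∧ z (Sum.inr 1) = true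

end Pool.Agent.MP_36f78e_lc.H24.Cl
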