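import Mathlib
import Pool.Agent.MP_36f78e_lc.H24.Norm
import Pool.Agent.MP_36f78e_lc.H24.Cl.Defs

/-!
The hybrid argument and the sampling argument.
-/

set_option linter.unusedSectionVars false

namespace Pool.Agent.MP_36f78e_lc.H24.Cl

open Finset Matrix
open scoped BigOperators

section

variable {α : Type} [Fintype α] [DecidableEq α]

/-- A valid gate. -/
def GV : Gate α → Prop
  | Sum.inl U => U ∈ unitaryGroup (α → Bool) ℂ
  | Sum.inr (l, t) => t ∉ l

lemma map_update {l : List α} {t : α} (h : t ∉ l) (y : α → Bool) (b : Bool) :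
    l.map (Function.update y t b) = l.map y :=
  List.map_congr_left fun a ha => Function.update_of_ne (fun e : a = t => h (e ▸ ha)) _ _

lemma nr_act (A : List Bool → Bool) {g : Gate α} (hg : GV g) (v : (α → Bool) → ℂ) :
    nr (act A g v) = nr v := by
  rcases g with U | ⟨l, t⟩
  · exact nr_unitary U (mem_unitaryGroup_iff'.1 hg) v
  · have hinv : Function.Involutive fun y : α → Bool =>
        Function.update y t (xor (y t) (A (l.map y))) := fun y => by
      simp only [map_update hg, Function.update_self, Function.update_idem, Bool.xor_assoc,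
        Bool.xor_self, Bool.xor_false, Function.update_eq_self]
    exact nr_comp_equiv hinv.toPerm v

lemma act_sub (A : List Bool → Bool) (g : Gate α) (u v : (α → Bool) → ℂ) :
    act A g (u - v) = act A g u - act A g v := by
  rcases g with U | ⟨l, t⟩
  · exact mulVec_sub _ _ _
  · rfl

/-- The action of a list of gates. -/
def run (A : List Bool → Bool) (gs : List (Gate α)) (v : (α → Bool) → ℂ) : (α → Bool) → ℂ :=
  gs.foldl (fun v g => act A g v) v

lemma run_cons (A : List Bool → Bool) (g : Gate α) (gs : List (Gate α)) (v : (α → Bool) → ℂ) :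
    run A (g :: gs) v = run A gs (act A g v) := rfl

lemma run_sub (A : List Bool → Bool) (gs : List (Gate α)) (u v : (α → Bool) → ℂ) :
    run A gs (u - v) = run A gs u - run A gs v := by
  induction gs generalizing u v with
  | nil => rfl
  | cons g gs ih => rw [run_cons, act_sub, ih, run_cons, run_cons]

lemma nr_run (A : List Bool → Bool) (gs : List (Gate α)) (h : ∀ g ∈ gs, GV g)
    (v : (α → Bool) → ℂ) : nr (run A gs v) = nr v := by
  induction gs generalizing v with
  | nil => rfl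
  | cons g gs ih =>
    rw [run_cons, ih fun g hg => h g (List.mem_cons_of_mem _ hg),
      nr_act A (h g List.mem_cons_self)]

/-- The weight that one gate puts on the string `s`. -/
noncomputable def qm : Gate α → ((α → Bool) → ℂ) → List Bool → ℝ
  | Sum.inl _, _, _ => 0
  | Sum.inr (l, _), v, s => ∑ y, if l.map y = s then ‖v y‖ ^ 2 else 0

/-- The total query weight of the string `s`. -/
noncomputable def mass (A : List Bool → Bool) : List (Gate α) → ((α → Bool) → ℂ) → List Bool → ℝ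
  | [], _, _ => 0
  | g :: gs, v, s => qm g v s + mass A gs (act A g v) s

lemma qm_nonneg (g : Gate α) (v : (α → Bool) → ℂ) (s : List Bool) : 0 ≤ qm g v s := by
  rcases g with U | ⟨l, t⟩
  · exact le_rfl
  · exact sum_nonneg fun y _ => by split_ifs <;> positivity

lemma mass_nonneg (A : List Bool → Bool) (gs : List (Gate α)) (v : (α → Bool) → ℂ)
    (s : List Bool) : 0 ≤ mass A gs v s := by
  induction gs generalizing v with
  | nil => exact le_rfl
  | cons g gs ih => exact add_nonneg (qm_nonneg _ _ _) (ih _)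

lemma sum_qm (l : List α) (t : α) (v : (α → Bool) → ℂ) (D : Finset (List Bool)) :
    ∑ s ∈ D, qm (Sum.inr (l, t)) v s = nsq fun y => if l.map y ∈ D then v y else 0 := by
  simp only [qm, nsq]
  rw [sum_comm]
  refine sum_congr rfl fun y _ => ?_
  rw [sum_ite_eq]
  split_ifs <;> simp

lemma nsq_restrict_le (P : (α → Bool) → Prop) [DecidablePred P] (v : (α → Bool) → ℂ) :
    nsq (fun y => if P y then v y else 0) ≤ nsq v :=
  sum_le_sum fun y _ => by by_cases h : P y <;> simp [h]

lemma sum_mass_le (A : List Bool → Bool) (gs : List (Gate α)) (h : ∀ g ∈ gs, GV g)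
    (v : (α → Bool) → ℂ) (D : Finset (List Bool)) :
    ∑ s ∈ D, mass A gs v s ≤ gs.countP Sum.isRight * nsq v := by
  induction gs generalizing v with
  | nil => simp [mass]
  | cons g gs ih =>
    have h1 := ih (fun g hg => h g (List.mem_cons_of_mem _ hg)) (act A g v)
    rw [← nr_sq, nr_act A (h g List.mem_cons_self), nr_sq] at h1
    simp only [mass, sum_add_distrib, List.countP_cons]
    rcases g with U | ⟨l, t⟩
    · simpa [qm] using h1
    · have h2 := nsq_restrict_le (fun y => l.map y ∈ D) v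
      rw [← sum_qm l t] at h2
      simp only [Sum.isRight_inr, if_true]
      push_cast
      linarith

lemma nr_act_diff {A A' : List Bool → Bool} {D : Finset (List Bool)} (hA : ∀ s ∉ D, A s = A' s)
    {ε : ℝ} (hε : 0 < ε) {g : Gate α} (hg : GV g) (v : (α → Bool) → ℂ) :
    nr (act A g v - act A' g v) ≤
      (∑ s ∈ D, qm g v s) / ε + ε * (if g.isRight = true then 1 else 0) := by
  rcases g with U | ⟨l, t⟩
  · simp [act, nr_zero, qm]
  · set u : (α → Bool) → ℂ := fun y => if l.map y ∈ D then v y else 0 with hu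
    have e : act A (Sum.inr (l, t)) v - act A' (Sum.inr (l, t)) v =
        act A (Sum.inr (l, t)) u - act A' (Sum.inr (l, t)) u := by
      funext y
      simp only [act, Pi.sub_apply, hu, map_update hg]
      split_ifs with h
      · rfl
      · rw [hA _ h]; simp
    rw [e, sum_qm, ← hu]
    refine (nr_sub_le _ _).trans ?_
    rw [nr_act A hg, nr_act A' hg, ← nr_sq]
    simp only [Sum.isRight_inr, if_true, mul_one]
    rw [div_add' _ _ _ hε.ne', le_div_iff₀ hε]
    nlinarith [sq_nonneg (nr u - ε)]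

lemma hybrid {A A' : List Bool → Bool} {D : Finset (List Bool)} (hA : ∀ s ∉ D, A s = A' s)
    {ε : ℝ} (hε : 0 < ε) (gs : List (Gate α)) (h : ∀ g ∈ gs, GV g) (v : (α → Bool) → ℂ) :
    nr (run A gs v - run A' gs v) ≤
      (∑ s ∈ D, mass A gs v s) / ε + ε * gs.countP Sum.isRight := by
  induction gs generalizing v with
  | nil => simp [run, mass, nr_zero]
  | cons g gs ih =>
    have h' : ∀ g ∈ gs, GV g := fun g hg => h g (List.mem_cons_of_mem _ hg)
    have e : run A (g :: gs) v - run A' (g :: gs) v =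
        (run A gs (act A g v) - run A' gs (act A g v)) + run A' gs (act A g v - act A' g v) := by
      rw [run_sub, run_cons, run_cons]; abel
    have h1 := ih h' (act A g v)
    have h2 := nr_act_diff hA hε (h g List.mem_cons_self) v
    rw [e]
    refine (nr_add_le _ _).trans ?_
    rw [nr_run A' gs h']
    simp only [mass, sum_add_distrib, List.countP_cons, add_div]
    push_cast
    linarith

lemma gap (acc : Finset (α → Bool)) (a b : (α → Bool) → ℂ) (ha : ∑ z ∈ acc, ‖a z‖ ^ 2 ≤ 1 / 3)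
    (hb : 2 / 3 ≤ ∑ z ∈ acc, ‖b z‖ ^ 2) : 1 / 6 ≤ nr (a - b) := by
  have e : ∀ v : (α → Bool) → ℂ, ∑ z ∈ acc, ‖v z‖ ^ 2 =
      nr (fun z => if z ∈ acc then v z else 0) ^ 2 := fun v => by
    rw [nr_sq, nsq, ← sum_subset (subset_univ acc) fun z _ hz => by simp [hz]]
    exact sum_congr rfl fun z hz => by simp [hz]
  rw [e] at ha hb
  have h1 : nr (fun z => if z ∈ acc then (a - b) z else 0) ≤ nr (a - b) :=
    Real.sqrt_le_sqrt (nsq_restrict_le _ _)
  have h2 := nr_sub_le (fun z => if z ∈ acc then a z else 0)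
    (fun z => if z ∈ acc then (a - b) z else 0)
  have h3 : ((fun z => if z ∈ acc then a z else 0) - fun z => if z ∈ acc then (a - b) z else 0) =
      fun z => if z ∈ acc then b z else 0 := by
    funext z
    simp only [Pi.sub_apply]
    split_ifs <;> simp
  rw [h3] at h2
  have h4 := nr_nonneg (fun z => if z ∈ acc then a z else 0)
  have h5 := nr_nonneg (fun z => if z ∈ acc then b z else 0)
  have h6 : nr (fun z => if z ∈ acc then a z else 0) ≤ 3 / 5 := by nlinarith
  have h7 : 4 / 5 ≤ nr (fun z => if z ∈ acc then b z else 0) := by nlinarith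
  linarith

end

/-- The initial vector. -/
def init {p : ℕ} (q : ℕ) (w : (Fin p → Bool) → ℂ) : (Fin p ⊕ Fin q → Bool) → ℂ := fun y =>
  if ∀ j, y (Sum.inr j) = false then w (fun i => y (Sum.inl i)) else 0

lemma sum_split {p q : ℕ} {M : Type} [AddCommMonoid M] (f : (Fin p ⊕ Fin q → Bool) → M) :
    ∑ y, f y = ∑ x : Fin p → Bool, ∑ a : Fin q → Bool, f (Sum.elim x a) := by
  rw [← (Equiv.sumArrowEquivProdArrow (Fin p) (Fin q) Bool).symm.sum_comp, Fintype.sum_prod_type]
  rfl

lemma nsq_init {p : ℕ} (q : ℕ) (w : (Fin p → Bool) → ℂ) : nsq (init q w) = nsq w := by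
  unfold nsq
  rw [sum_split]
  refine sum_congr rfl fun x _ => ?_
  rw [sum_eq_single (fun _ => false)]
  · simp [init]
  · intro a _ ha
    have : ¬ ∀ j, a j = false := fun h => ha (funext h)
    simp [init, this]
  · simp

lemma Verifier.Valid.gv {V : Verifier} (h : V.Valid) : ∀ g ∈ V.gates, GV g := by
  rintro (U | ⟨l, t⟩) hg
  · exact h.1 U hg
  · exact h.2 l t hg

lemma accProb_eq (V : Verifier) (A : List Bool → Bool) (w : (Fin V.p → Bool) → ℂ) :
    V.accProb A w = ∑ z ∈ V.acc, ‖run A V.gates (init V.q w) z‖ ^ 2 := rfl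

/-- A verifier that tells two oracles apart puts weight on their difference. -/
lemma mass_ge {V : Verifier} (hV : V.Valid) {A A' : List Bool → Bool} {D : Finset (List Bool)}
    (hA : ∀ s ∉ D, A s = A' s) (w : (Fin V.p → Bool) → ℂ) (h1 : V.accProb A w ≤ 1 / 3)
    (h2 : 2 / 3 ≤ V.accProb A' w) :
    1 / (144 * ((V.queries : ℝ) + 1)) ≤ ∑ s ∈ D, mass A V.gates (init V.q w) s := by
  have hT : (0 : ℝ) ≤ V.queries := Nat.cast_nonneg _
  have h3 := (gap V.acc _ _ h1 h2).trans (hybrid hA
    (ε := 1 / (12 * ((V.queries : ℝ) + 1))) (by positivity) V.gates hV.gv (init V.q w))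
  have h4 : 1 / (12 * ((V.queries : ℝ) + 1)) * V.queries ≤ 1 / 12 := by
    rw [div_mul_eq_mul_div, div_le_div_iff₀ (by positivity) (by positivity)]
    linarith
  rw [div_le_iff₀ (by positivity)]
  rw [div_div_eq_mul_div, div_one] at h3
  unfold Verifier.queries at *
  linarith

lemma sum_mass_basis {V : Verifier} (hV : V.Valid) (A : List Bool → Bool) (y : Fin V.p → Bool)
    (D : Finset (List Bool)) :
    ∑ s ∈ D, mass A V.gates (init V.q (Pi.single y 1)) s ≤ V.queries := by
  have h := sum_mass_le A V.gates hV.gv (init V.q (Pi.single y 1)) D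
  have e : nsq (Pi.single y (1 : ℂ) : (Fin V.p → Bool) → ℂ) = 1 := by
    unfold nsq
    rw [sum_eq_single y (fun b _ hb => by simp [hb]) (by simp)]
    simp
  rwa [nsq_init, e, mul_one] at h

section Sampler

variable {Z Ω : Type} [Fintype Z] [DecidableEq Z] [Fintype Ω] [Nonempty Ω]

/-- The probability that the sampler only ever outputs new points of `O`. -/
noncomputable def succ (μ : Finset Z → Z → ℝ) (O : Finset Z) : ℕ → Finset Z → ℝ
  | 0, Δ => if Δ ⊆ O then 1 else 0
  | t + 1, Δ => ∑ z ∈ Δᶜ, μ Δ z * succ μ O t (insert z Δ)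

lemma succ_nonneg {μ : Finset Z → Z → ℝ} (h0 : ∀ Δ z, 0 ≤ μ Δ z) (O : Finset Z) (t : ℕ)
    (Δ : Finset Z) : 0 ≤ succ μ O t Δ := by
  induction t generalizing Δ with
  | zero => unfold succ; split_ifs <;> norm_num
  | succ t ih => exact sum_nonneg fun z _ => mul_nonneg (h0 _ _) (ih _)

lemma succ_ge {μ : Finset Z → Z → ℝ} (h0 : ∀ Δ z, 0 ≤ μ Δ z) {O : Finset Z} {η : ℝ} (hη : 0 ≤ η)
    {v : ℕ} (h : ∀ Δ ⊆ O, Δ.card ≤ v → η ≤ ∑ z ∈ O \ Δ, μ Δ z) (t : ℕ) (Δ : Finset Z)
    (hΔ : Δ ⊆ O) (ht : Δ.card + t ≤ v) : η ^ t ≤ succ μ O t Δ := by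
  induction t generalizing Δ with
  | zero => simp [succ, hΔ]
  | succ t ih =>
    calc η ^ (t + 1) = η * η ^ t := pow_succ' _ _
      _ ≤ (∑ z ∈ O \ Δ, μ Δ z) * η ^ t :=
          mul_le_mul_of_nonneg_right (h Δ hΔ (by omega)) (pow_nonneg hη _)
      _ ≤ ∑ z ∈ O \ Δ, μ Δ z * succ μ O t (insert z Δ) := by
          rw [sum_mul]
          refine sum_le_sum fun z hz => mul_le_mul_of_nonneg_left (ih _ ?_ ?_) (h0 _ _)
          · exact insert_subset (mem_sdiff.1 hz).1 hΔ
          · have := card_insert_le z Δ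
            omega
      _ ≤ _ := sum_le_sum_of_subset_of_nonneg
          (fun z hz => mem_compl.2 (mem_sdiff.1 hz).2)
          fun z _ _ => mul_nonneg (h0 _ _) (succ_nonneg h0 _ _ _)

lemma expect_succ_le {μ : Finset Z → Z → ℝ} (h0 : ∀ Δ z, 0 ≤ μ Δ z) (h1 : ∀ Δ, ∑ z, μ Δ z ≤ 1)
    (O : Ω → Finset Z) {ρ : ℝ} (hρ : 0 ≤ ρ) {v : ℕ}
    (h : ∀ Y : Finset Z, Y.card ≤ v → 𝔼 ω, (if Y ⊆ O ω then 1 else 0 : ℝ) ≤ ρ ^ Y.card)
    (t : ℕ) (Δ : Finset Z) (ht : Δ.card + t ≤ v) :
    𝔼 ω, succ μ (O ω) t Δ ≤ ρ ^ (Δ.card + t) := by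
  induction t generalizing Δ with
  | zero => exact h Δ ht
  | succ t ih =>
    simp only [succ]
    rw [expect_sum_comm]
    calc _ ≤ ∑ z ∈ Δᶜ, μ Δ z * ρ ^ (Δ.card + (t + 1)) := by
          refine sum_le_sum fun z hz => ?_
          rw [← mul_expect]
          refine mul_le_mul_of_nonneg_left ?_ (h0 _ _)
          have e : (insert z Δ).card = Δ.card + 1 := card_insert_of_notMem (mem_compl.1 hz)
          have := ih (insert z Δ) (by omega)
          rwa [e, add_assoc, add_comm 1 t] at this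
      _ ≤ 1 * ρ ^ (Δ.card + (t + 1)) := by
          rw [← sum_mul]
          exact mul_le_mul_of_nonneg_right ((sum_le_sum_of_subset_of_nonneg (subset_univ _)
            fun z _ _ => h0 _ _).trans (h1 Δ)) (pow_nonneg hρ _)
      _ = _ := one_mul _

theorem sampler {W : Type} [Fintype W] (μ : W → Finset Z → Z → ℝ) (h0 : ∀ w Δ z, 0 ≤ μ w Δ z)
    (h1 : ∀ w Δ, ∑ z, μ w Δ z ≤ 1) (O : Ω → Finset Z) {ρ η : ℝ} (hρ : 0 ≤ ρ) (hη : 0 ≤ η) {v : ℕ}
    (hup : ∀ Y : Finset Z, Y.card ≤ v → 𝔼 ω, (if Y ⊆ O ω then 1 else 0 : ℝ) ≤ ρ ^ Y.card)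
    (z0 : Z)
    (hlo : ∀ ω, z0 ∈ O ω → ∃ w, ∀ Δ ⊆ O ω, Δ.card ≤ v → η ≤ ∑ z ∈ O ω \ Δ, μ w Δ z) :
    (𝔼 ω, (if z0 ∈ O ω then 1 else 0 : ℝ)) * η ^ v ≤ Fintype.card W * ρ ^ v := by
  calc _ = 𝔼 ω, (if z0 ∈ O ω then 1 else 0 : ℝ) * η ^ v := expect_mul _ _ _
    _ ≤ 𝔼 ω, ∑ w, succ (μ w) (O ω) v ∅ := by
        refine expect_le_expect fun ω _ => ?_
        split_ifs with h
        · obtain ⟨w, hw⟩ := hlo ω h
          rw [one_mul]
          exact (succ_ge (h0 w) hη hw v ∅ (empty_subset _) (by simp)).trans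
            (single_le_sum (f := fun w => succ (μ w) (O ω) v ∅)
              (fun w _ => succ_nonneg (h0 w) _ _ _) (mem_univ w))
        · rw [zero_mul]
          exact sum_nonneg fun w _ => succ_nonneg (h0 w) _ _ _
    _ = ∑ w, 𝔼 ω, succ (μ w) (O ω) v ∅ := expect_sum_comm _ _ _
    _ ≤ _ := by
        refine (sum_le_card_nsmul _ _ (ρ ^ v) fun w _ => ?_).trans (by simp)
        simpa using expect_succ_le (h0 w) (h1 w) O hρ hup v ∅ (by simp)

end Sampler

end Pool.Agent.MP_36f78e_lc.H24.Cl
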