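import Mathlib
import Pool.Agent.MP_36f78e_lc.H24.Cl.Hyb

/-!
Analysis of the two-query test.
-/

set_option linter.unusedSectionVars false

namespace Pool.Agent.MP_36f78e_lc.H24.Cl

open Finset Matrix

variable {n : ℕ}

/-- The sign `(-1)^(e·z)`. -/
def sgn (e z : Fin n → Bool) : ℂ := ∏ i, if e i = true ∧ z i = true then -1 else 1

/-- The Hadamard transform on `n` qubits. -/
noncomputable def Hn (n : ℕ) : Matrix (Fin n → Bool) (Fin n → Bool) ℂ :=
  fun x y => ∏ i, (if x i = true ∧ y i = true then -1 else 1) / (√2 : ℝ)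

lemma sqrt_two_sq : ((√2 : ℝ) : ℂ) * (√2 : ℝ) = 2 := by
  rw [← Complex.ofReal_mul, Real.mul_self_sqrt (by norm_num)]; norm_num

lemma sqrt_two_ne : ((√2 : ℝ) : ℂ) ≠ 0 := fun h => by
  have := sqrt_two_sq
  rw [h] at this
  norm_num at this

lemma Hn_eq (x y : Fin n → Bool) : Hn n x y = sgn x y / ((√2 : ℝ) : ℂ) ^ n := by
  simp [Hn, sgn, prod_div_distrib]

lemma norm_Hn_sq (x y : Fin n → Bool) : ‖Hn n x y‖ ^ 2 = 1 / 2 ^ n := by
  have h : ‖sgn x y‖ = 1 := by
    rw [sgn, norm_prod]
    exact prod_eq_one fun i _ => by split_ifs <;> simp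
  rw [Hn_eq, norm_div, h, norm_pow, Complex.norm_real, Real.norm_of_nonneg (Real.sqrt_nonneg _),
    div_pow, ← pow_mul, mul_comm n, pow_mul, Real.sq_sqrt (by norm_num), one_pow]

lemma Hn_orth (x y : Fin n → Bool) :
    ∑ z, Hn n x z * star (Hn n y z) = if x = y then 1 else 0 := by
  have e : ∀ z, Hn n x z * star (Hn n y z) = ∏ i,
      ((if x i = true ∧ z i = true then -1 else 1) * (if y i = true ∧ z i = true then -1 else 1) /
        2 : ℂ) := fun z => by
    rw [Hn, Hn, star_prod, ← prod_mul_distrib]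
    refine prod_congr rfl fun i _ => ?_
    rw [← sqrt_two_sq, star_div₀, Complex.star_def, Complex.conj_ofReal, div_mul_div_comm]
    split_ifs <;> simp
  simp only [e]
  rw [← Fintype.piFinset_univ, ← prod_univ_sum (fun _ : Fin n => (univ : Finset Bool))
    fun i b => ((if x i = true ∧ b = true then -1 else 1) *
      (if y i = true ∧ b = true then -1 else 1) / 2 : ℂ)]
  have e2 : ∀ i, ∑ b : Bool, ((if x i = true ∧ b = true then -1 else 1) *
      (if y i = true ∧ b = true then -1 else 1) / 2 : ℂ) = if x i = y i then 1 else 0 := fun i => by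
    cases x i <;> cases y i <;> simp <;> norm_num
  simp only [e2]
  rw [prod_ite_zero]
  simp [funext_iff]

lemma Hn_unitary : Hn n ∈ unitaryGroup (Fin n → Bool) ℂ := by
  rw [mem_unitaryGroup_iff]
  ext x y
  rw [mul_apply, one_apply, ← Hn_orth]
  rfl

lemma hadAll_elim (x y : Fin n → Bool) (a b : Fin 2 → Bool) :
    hadAll n (Sum.elim x a) (Sum.elim y b) = if a = b then Hn n x y else 0 := by
  exact if_congr funext_iff.symm rfl rfl

lemma elim_self {p q : ℕ} (x : Fin p ⊕ Fin q → Bool) :
    x = Sum.elim (fun i => x (Sum.inl i)) fun j => x (Sum.inr j) := by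
  funext i; cases i <;> rfl

lemma hadAll_unitary : hadAll n ∈ unitaryGroup (Fin n ⊕ Fin 2 → Bool) ℂ := by
  rw [mem_unitaryGroup_iff]
  ext x y
  rw [mul_apply, one_apply, sum_split, elim_self x, elim_self y]
  generalize (fun i => x (Sum.inl i)) = x1
  generalize (fun i => y (Sum.inl i)) = y1
  generalize (fun i => x (Sum.inr i)) = x2
  generalize (fun i => y (Sum.inr i)) = y2
  simp only [star_apply, hadAll_elim, ite_mul, zero_mul, sum_ite_eq, mem_univ, if_true,
    Sum.elim_eq_iff]
  by_cases h : y2 = x2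
  · simp only [h, if_true, and_true, Hn_orth]
  · simp [h, Ne.symm h]

lemma mem_test (g : Gate (Fin n ⊕ Fin 2)) (h : g ∈ (test n).gates) :
    g = Sum.inr (Sum.inr 1 :: List.ofFn Sum.inl, Sum.inr 0) ∨ g = Sum.inl (hadAll n) ∨
      g = Sum.inr (Sum.inr 0 :: List.ofFn Sum.inl, Sum.inr 1) := by
  have h' : g ∈ [Sum.inr (Sum.inr 1 :: List.ofFn Sum.inl, Sum.inr 0), Sum.inl (hadAll n),
    Sum.inr (Sum.inr 0 :: List.ofFn Sum.inl, Sum.inr 1)] := h
  simpa using h'

lemma test_valid (n : ℕ) : (test n).Valid := by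
  constructor
  · intro U hU
    rcases mem_test _ hU with h | h | h
    · cases h
    · cases h; exact hadAll_unitary
    · cases h
  · intro l t h
    rcases mem_test _ h with h | h | h
    · cases h
      change (Sum.inr 0 : Fin n ⊕ Fin 2) ∉ Sum.inr 1 :: List.ofFn Sum.inl
      simp [List.mem_ofFn]
    · cases h
    · cases h
      change (Sum.inr 1 : Fin n ⊕ Fin 2) ∉ Sum.inr 0 :: List.ofFn Sum.inl
      simp [List.mem_ofFn]

/-- The strings of length `n` that the oracle accepts after the letter `b`. -/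
def part (A : List Bool → Bool) (n : ℕ) (b : Bool) : Finset (Fin n → Bool) :=
  univ.filter fun z => A (b :: List.ofFn z) = true

lemma update_zero (x : Fin n → Bool) (a b c : Bool) :
    Function.update (Sum.elim x ![a, b] : Fin n ⊕ Fin 2 → Bool) (Sum.inr 0) c =
      Sum.elim x ![c, b] := by
  funext i
  rcases i with i | i
  · simp
  · fin_cases i <;> simp

lemma update_one (x : Fin n → Bool) (a b c : Bool) :
    Function.update (Sum.elim x ![a, b] : Fin n ⊕ Fin 2 → Bool) (Sum.inr 1) c =
      Sum.elim x ![a, c] := by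
  funext i
  rcases i with i | i
  · simp
  · fin_cases i <;> simp

lemma init_elim (w : (Fin n → Bool) → ℂ) (x : Fin n → Bool) (a b : Bool) :
    init 2 w (Sum.elim x ![a, b]) = if a = false ∧ b = false then w x else 0 := by
  simp [init, Fin.forall_fin_two]

lemma map_wires (x : Fin n → Bool) (a : Fin 2 → Bool) :
    (List.ofFn Sum.inl).map (Sum.elim x a) = List.ofFn x := by
  rw [List.map_ofFn]; rfl

lemma test_acc (A : List Bool → Bool) (w : (Fin n → Bool) → ℂ) :
    (test n).accProb A w =
      ∑ e ∈ part A n true, ‖∑ z ∈ part A n false, Hn n e z * w z‖ ^ 2 := by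
  rw [accProb_eq]
  change ∑ z ∈ univ.filter (fun z : Fin n ⊕ Fin 2 → Bool =>
    z (Sum.inr 0) = true ∧ z (Sum.inr 1) = true), ‖act A
      (Sum.inr (Sum.inr 0 :: List.ofFn Sum.inl, Sum.inr 1)) (act A (Sum.inl (hadAll n))
      (act A (Sum.inr (Sum.inr 1 :: List.ofFn Sum.inl, Sum.inr 0)) (init 2 w))) z‖ ^ 2 = _
  rw [sum_filter, sum_split, part, sum_filter]
  refine sum_congr rfl fun e _ => ?_
  rw [sum_eq_single ![true, true]]
  · simp only [Sum.elim_inr, cons_val_zero, cons_val_one, and_self, if_true, act, List.map_cons,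
      map_wires, update_one, mulVec, dotProduct]
    rw [sum_split]
    simp only [hadAll_elim, ite_mul, zero_mul, sum_ite_eq, mem_univ, if_true, Sum.elim_inr,
      cons_val_zero, cons_val_one, map_wires, update_zero, init_elim]
    cases h : A (true :: List.ofFn e)
    · simp
    · simp only [Bool.xor_self, and_true, if_true, part, sum_filter]
      congr 2
      refine sum_congr rfl fun z _ => ?_
      cases A (false :: List.ofFn z) <;> simp
  · intro a _ ha
    rw [if_neg]
    rintro ⟨h0, h1⟩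
    apply ha
    funext i
    fin_cases i
    · exact h0
    · exact h1
  · simp

/-- Positive instances. -/
def Yes (A : List Bool → Bool) (n : ℕ) : Prop :=
  (part A n false).Nonempty ∧ ∀ e ∉ part A n true, ∑ z ∈ part A n false, sgn e z = 0

/-- Negative instances. -/
def No (A : List Bool → Bool) (n : ℕ) : Prop :=
  3 * ((part A n false).card * (part A n true).card) ≤ 2 ^ n

lemma isState_subset {S : Finset (Fin n → Bool)} (h : S.Nonempty) : IsState (subsetState S) := by
  have h1 : (0 : ℝ) < S.card := by exact_mod_cast h.card_pos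
  unfold IsState subsetState
  rw [← sum_subset (subset_univ S) fun z _ hz => by simp [hz],
    sum_congr rfl fun z hz => by rw [if_pos hz]]
  rw [sum_const, nsmul_eq_mul, norm_div, norm_one, Complex.norm_real,
    Real.norm_of_nonneg (Real.sqrt_nonneg _), div_pow, Real.sq_sqrt h1.le]
  field_simp

lemma test_yes {A : List Bool → Bool} (h : Yes A n) (w : (Fin n → Bool) → ℂ)
    (hw : w = subsetState (part A n false)) : (test n).accProb A w = 1 := by
  rw [test_acc]
  have e1 : ∀ e, ∑ z ∈ part A n false, Hn n e z * w z = (Hn n *ᵥ w) e := fun e =>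
    sum_subset (subset_univ _) fun z _ hz => by simp [hw, subsetState, hz]
  have e2 : ∀ e ∉ part A n true, ∑ z ∈ part A n false, Hn n e z * w z = 0 := fun e he => by
    rw [sum_congr rfl fun z hz => by rw [hw, subsetState, if_pos hz, Hn_eq], ← sum_mul,
      ← sum_div, h.2 e he]
    simp
  rw [sum_subset (subset_univ _) fun e _ he => by rw [e2 e he]; simp]
  simp only [e1]
  have h1 := nr_unitary (Hn n) (mem_unitaryGroup_iff'.1 Hn_unitary) w
  have h2 : nsq w = 1 := hw ▸ isState_subset h.1
  change nsq (Hn n *ᵥ w) = 1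
  rw [← nr_sq, h1, nr_sq, h2]

lemma test_no {A : List Bool → Bool} (h : No A n) (w : (Fin n → Bool) → ℂ) (hw : IsState w) :
    (test n).accProb A w ≤ 1 / 3 := by
  rw [test_acc]
  have h1 : ∀ e, ‖∑ z ∈ part A n false, Hn n e z * w z‖ ^ 2 ≤ (part A n false).card / 2 ^ n := by
    intro e
    calc _ ≤ (∑ z ∈ part A n false, ‖Hn n e z‖ * ‖w z‖) ^ 2 := by
          refine pow_le_pow_left₀ (norm_nonneg _) ((norm_sum_le _ _).trans (le_of_eq ?_)) 2
          simp only [norm_mul]
      _ ≤ (∑ z ∈ part A n false, ‖Hn n e z‖ ^ 2) * ∑ z ∈ part A n false, ‖w z‖ ^ 2 :=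
          sum_mul_sq_le_sq_mul_sq _ _ _
      _ ≤ (∑ z ∈ part A n false, ‖Hn n e z‖ ^ 2) * 1 :=
          mul_le_mul_of_nonneg_left ((sum_le_sum_of_subset_of_nonneg (subset_univ _)
            fun _ _ _ => sq_nonneg _).trans hw.le) (sum_nonneg fun _ _ => sq_nonneg _)
      _ = _ := by simp only [norm_Hn_sq, sum_const, nsmul_eq_mul]; ring
  refine (sum_le_card_nsmul _ _ _ fun e _ => h1 e).trans ?_
  have h2 : (3 : ℝ) * ((part A n false).card * (part A n true).card) ≤ 2 ^ n := by
    exact_mod_cast h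
  rw [nsmul_eq_mul, ← mul_div_assoc, div_le_div_iff₀ (by positivity) (by norm_num)]
  linarith

end Pool.Agent.MP_36f78e_lc.H24.Cl
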