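import Mathlib

/-!
An additive lossless expander (the construction of Guruswami, Umans and Vadhan in
characteristic two).
-/

set_option linter.unusedSectionVars false

namespace Pool.Agent.MP_36f78e_lc.H24.Cl

open Finset Polynomial

section

variable {K L : Type} [Field K] [Field L] [Algebra K L] (pb : PowerBasis K L)

/-- The polynomial of small degree that represents `z`. -/
noncomputable def rep (z : L) : K[X] := ∑ i : Fin pb.dim, C (pb.basis.repr z i) * X ^ (i : ℕ)

lemma rep_add (z w : L) : rep pb (z + w) = rep pb z + rep pb w := by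
  simp [rep, add_mul, sum_add_distrib]

lemma aeval_rep (z : L) : aeval pb.gen (rep pb z) = z := by
  conv_rhs => rw [← pb.basis.sum_repr z]
  simp [rep, Algebra.smul_def]

lemma natDegree_rep (z : L) : (rep pb z).natDegree ≤ pb.dim - 1 := by
  refine natDegree_sum_le_of_forall_le _ _ fun i _ => (natDegree_C_mul_X_pow_le _ _).trans ?_
  have := i.2
  omega

/-- The symbol of `z` at the point `a`. -/
noncomputable def sym (m : ℕ) (a : K) (z : L) : Fin m → K :=
  fun j => (rep pb (z ^ 2 ^ (j : ℕ))).eval a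

variable {ι : Type} [Fintype ι] {α : ι → K} {m : ℕ} {Y : Finset L}

/-- Binary digits. -/
def dg {v m : ℕ} (h : v ≤ 2 ^ m) (e : Fin v) (j : Fin m) : ℕ :=
  (finFunctionFinEquiv.symm (Fin.castLE h e) j : ℕ)

lemma dg_le {v m : ℕ} (h : v ≤ 2 ^ m) (e : Fin v) (j : Fin m) : dg h e j ≤ 1 :=
  Nat.lt_succ_iff.1 (finFunctionFinEquiv.symm (Fin.castLE h e) j).2

lemma sum_dg {v m : ℕ} (h : v ≤ 2 ^ m) (e : Fin v) : ∑ j : Fin m, 2 ^ (j : ℕ) * dg h e j = e := by
  have := finFunctionFinEquiv_apply_val (finFunctionFinEquiv.symm (Fin.castLE h e))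
  rw [Equiv.apply_symm_apply] at this
  rw [show (e : ℕ) = (Fin.castLE h e : ℕ) from rfl, this]
  exact sum_congr rfl fun j _ => mul_comm _ _

lemma guv_step (hα : Function.Injective α) (hY : Y.card ≤ 2 ^ m) (p : Fin Y.card → K[X])
    (hp : ∀ e, (p e).natDegree + (pb.dim - 1) * m < Fintype.card ι)
    (hv : ∀ i, ∀ z ∈ Y, ∑ e, (p e).eval (α i) * ∏ j, sym pb m (α i) z j ^ dg hY e j = 0)
    (e : Fin Y.card) : aeval pb.gen (p e) = 0 := by
  have h1 : ∀ z ∈ Y, ∑ e, aeval pb.gen (p e) * z ^ (e : ℕ) = 0 := by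
    intro z hz
    have h2 : ∑ e, p e * ∏ j : Fin m, rep pb (z ^ 2 ^ (j : ℕ)) ^ dg hY e j = 0 := by
      refine eq_zero_of_natDegree_lt_card_of_eval_eq_zero _ hα (fun i => ?_) ?_
      · rw [← hv i z hz]
        simp [eval_finsetSum, eval_prod, sym]
      · have h0 := hp e
        refine lt_of_le_of_lt (natDegree_sum_le_of_forall_le _ _ (n := Fintype.card ι - 1)
          fun e' _ => natDegree_mul_le.trans ?_) (by omega)
        have h3 : (∏ j : Fin m, rep pb (z ^ 2 ^ (j : ℕ)) ^ dg hY e' j).natDegree ≤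
            (pb.dim - 1) * m := by
          refine (natDegree_prod_le _ _).trans ((sum_le_card_nsmul _ _ (pb.dim - 1)
            fun j _ => natDegree_pow_le.trans ?_).trans (by simp [mul_comm]))
          calc _ ≤ 1 * (pb.dim - 1) := Nat.mul_le_mul (dg_le _ _ _) (natDegree_rep _ _)
            _ = _ := one_mul _
        have := hp e'
        omega
    have h3 := congrArg (aeval pb.gen) h2
    simp only [map_sum, map_mul, map_prod, map_pow, aeval_rep, map_zero, ← pow_mul,
      prod_pow_eq_pow_sum, sum_dg] at h3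
    exact h3
  have h2 : ∑ e : Fin Y.card, C (aeval pb.gen (p e)) * X ^ (e : ℕ) = (0 : L[X]) :=
    eq_zero_of_degree_lt_of_eval_finset_eq_zero Y (degree_sum_fin_lt _) fun z hz => by
      rw [← h1 z hz]
      simp [eval_finsetSum]
  have h3 := congrArg (fun q => coeff q e) h2
  simp only [finsetSum_coeff, coeff_C_mul_X_pow, coeff_zero] at h3
  rw [sum_eq_single e (fun b _ hb => if_neg fun h => hb (Fin.ext h.symm)) (by simp)] at h3
  simpa using h3

lemma guv_zero (hk : 2 ≤ pb.dim) (hα : Function.Injective α) (hY : Y.card ≤ 2 ^ m) (N : ℕ) :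
    N + (pb.dim - 1) * m ≤ Fintype.card ι → ∀ p : Fin Y.card → K[X], (∀ e, (p e).degree < N) →
    (∀ i, ∀ z ∈ Y, ∑ e, (p e).eval (α i) * ∏ j, sym pb m (α i) z j ^ dg hY e j = 0) →
    ∀ e, p e = 0 := by
  induction N with
  | zero => intro _ p hp _ e; simpa using hp e
  | succ N ih =>
    intro hN p hp hv
    have hint := pb.isIntegral_gen
    have h1 := guv_step pb hα hY p (fun e => by
      have : (p e).natDegree ≤ N := natDegree_le_iff_degree_le.2 (Order.le_of_lt_succ (hp e))
      omega) hv
    choose p' hp' using fun e => minpoly.dvd K pb.gen (h1 e)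
    have hE : ∀ a : K, (minpoly K pb.gen).eval a ≠ 0 := fun a h => by
      have h2 := degree_eq_one_of_irreducible_of_root (minpoly.irreducible hint) h
      have h3 := natDegree_eq_of_degree_eq_some (n := 1) h2
      rw [pb.natDegree_minpoly] at h3
      omega
    have h2 := ih (by omega) p' (fun e => by
      by_cases h0 : p' e = 0
      · rw [h0, degree_zero]; exact WithBot.bot_lt_coe _
      · have h3 : (p e).natDegree ≤ N := natDegree_le_iff_degree_le.2 (Order.le_of_lt_succ (hp e))
        rw [hp' e, natDegree_mul (minpoly.ne_zero hint) h0, pb.natDegree_minpoly] at h3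
        rw [degree_eq_natDegree h0]
        exact_mod_cast (by omega : (p' e).natDegree < N)) (fun i z hz => by
      have h3 := hv i z hz
      simp only [hp', eval_mul, mul_assoc, ← mul_sum] at h3
      exact (mul_eq_zero.1 h3).resolve_left (hE _))
    intro e
    rw [hp' e, h2 e, mul_zero]

theorem guv [DecidableEq K] (hk : 2 ≤ pb.dim) (hα : Function.Injective α) (hY : Y.card ≤ 2 ^ m) :
    Fintype.card ι * Y.card ≤
      ∑ i, (Y.image (sym pb m (α i))).card + (pb.dim - 1) * m * Y.card := by
  classical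
  by_contra hcon
  push Not at hcon
  obtain ⟨A, hA⟩ : ∃ A, Fintype.card ι = A + (pb.dim - 1) * m := by
    refine ⟨Fintype.card ι - (pb.dim - 1) * m, (Nat.sub_add_cancel ?_).symm⟩
    by_contra h
    have := Nat.mul_le_mul_right Y.card (not_le.1 h).le
    omega
  rw [hA, add_mul] at hcon
  set T : Finset (Σ _ : ι, Fin m → K) := univ.sigma fun i => Y.image (sym pb m (α i)) with hT
  let Φ : (Fin Y.card × Fin A → K) →ₗ[K] (T → K) := LinearMap.pi fun t =>
    ∑ x : Fin Y.card × Fin A,
      (α t.1.1 ^ (x.2 : ℕ) * ∏ j, t.1.2 j ^ dg hY x.1 j) • LinearMap.proj x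
  have hker : LinearMap.ker Φ ≠ ⊥ := LinearMap.ker_ne_bot_of_finrank_lt (by
    simp only [Module.finrank_fintype_fun_eq_card, Fintype.card_coe, Fintype.card_prod,
      Fintype.card_fin, hT, card_sigma]
    rw [mul_comm]
    omega)
  obtain ⟨c, hc, hc0⟩ := Submodule.exists_mem_ne_zero_of_ne_bot hker
  have h1 := guv_zero pb hk hα hY A hA.ge (fun e => ∑ t : Fin A, C (c (e, t)) * X ^ (t : ℕ))
    (fun e => degree_sum_fin_lt _) (fun i z hz => by
      have h2 := congrFun (LinearMap.mem_ker.1 hc)
        ⟨⟨i, sym pb m (α i) z⟩, mem_sigma.2 ⟨mem_univ _, mem_image_of_mem _ hz⟩⟩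
      simp only [Φ, LinearMap.pi_apply, LinearMap.sum_apply, LinearMap.smul_apply,
        LinearMap.proj_apply, smul_eq_mul, Pi.zero_apply, Fintype.sum_prod_type] at h2
      rw [← h2]
      refine sum_congr rfl fun e _ => ?_
      simp only [eval_finsetSum, eval_mul, eval_C, eval_pow, eval_X, sum_mul]
      exact sum_congr rfl fun t _ => by ring)
  refine hc0 (funext fun x => ?_)
  have h3 := congrArg (fun q => coeff q x.2) (h1 x.1)
  simp only [finsetSum_coeff, coeff_C_mul_X_pow, coeff_zero] at h3
  rw [sum_eq_single x.2 (fun b _ hb => if_neg fun h => hb (Fin.ext h.symm)) (by simp)] at h3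
  simpa using h3

end

/-- Additive maps on a binary vector space that are nearly injective, on average, on every set of
at most `2 ^ m` points. -/
theorem exists_expander (r k m : ℕ) (hr : r ≠ 0) (hk : 2 ≤ k) (ι : Type) [Fintype ι]
    (hι : Fintype.card ι ≤ 2 ^ r) :
    ∃ (S : Type) (_ : AddCommGroup S) (_ : Fintype S) (_ : DecidableEq S)
      (π : ι → ((Fin (r * k) → ZMod 2) →+ S)), Fintype.card S = 2 ^ (r * m) ∧
      ∀ Y : Finset (Fin (r * k) → ZMod 2), Y.card ≤ 2 ^ m →
        Fintype.card ι * Y.card ≤ ∑ i, (Y.image (π i)).card + (k - 1) * m * Y.card := by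
  classical
  have : NeZero k := ⟨by omega⟩
  let K := GaloisField 2 r
  let L := FiniteField.Extension K 2 k
  have : Fintype K := Fintype.ofFinite K
  have hK : Fintype.card K = 2 ^ r := by
    rw [← Nat.card_eq_fintype_card]; exact GaloisField.card 2 r hr
  have hL : Module.finrank (ZMod 2) L = r * k := by
    rw [FiniteField.finrank_zmod_extension, GaloisField.finrank 2 hr]
  have : CharP L 2 := charP_of_injective_algebraMap (algebraMap (ZMod 2) L).injective 2
  let β : (Fin (r * k) → ZMod 2) ≃ₗ[ZMod 2] L :=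
    (Module.finBasisOfFinrankEq (ZMod 2) L hL).equivFun.symm
  let pb : PowerBasis K L := Field.powerBasisOfFiniteOfSeparable K L
  have hpb : pb.dim = k := by rw [← pb.finrank, FiniteField.finrank_extension]
  obtain ⟨α⟩ : Nonempty (ι ↪ K) := Function.Embedding.nonempty_of_card_le (hK ▸ hι)
  refine ⟨Fin m → K, inferInstance, inferInstance, inferInstance,
    fun i => AddMonoidHom.mk' (fun z => sym pb m (α i) (β z)) fun z w => ?_, ?_, fun Y hY => ?_⟩
  · funext j
    simp only [sym, map_add, add_pow_char_pow, rep_add, eval_add, Pi.add_apply]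
  · rw [Fintype.card_fun, hK, Fintype.card_fin, ← pow_mul]
  · have h1 : (Y.image β).card = Y.card := card_image_of_injective _ β.injective
    have h2 := guv pb (Y := Y.image β) (m := m) (by rw [hpb]; exact hk) α.injective
      (by rw [h1]; exact hY)
    rw [h1, hpb] at h2
    simp only [image_image] at h2
    exact h2

end Pool.Agent.MP_36f78e_lc.H24.Cl
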