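import Mathlib

/-!
The iterated not-all-equal function: low degree, but hard to bias.
-/

set_option linter.unusedSectionVars false

namespace Pool.Agent.MP_36f78e_lc.H24.Cl

open Finset
open scoped BigOperators

/-- The not-all-equal polynomial. -/
def nae {R : Type} [CommRing R] (a b c : R) : R := a + b + c - a * b - b * c - a * c

/-- The iterated not-all-equal polynomial on a ternary tree. -/
def tr {R : Type} [CommRing R] : (d : ℕ) → ((Fin d → Fin 3) → R) → R
  | 0, x => x default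
  | d + 1, x => nae (tr d fun l => x (Fin.cons 0 l)) (tr d fun l => x (Fin.cons 1 l))
      (tr d fun l => x (Fin.cons 2 l))

lemma map_tr {R S : Type} [CommRing R] [CommRing S] (f : R →+* S) (d : ℕ)
    (x : (Fin d → Fin 3) → R) : f (tr d x) = tr d fun l => f (x l) := by
  induction d with
  | zero => rfl
  | succ d ih => simp only [tr, nae, map_sub, map_add, map_mul, ih]

lemma tr_bool (d : ℕ) (x : (Fin d → Fin 3) → ℝ) (h : ∀ l, x l = 0 ∨ x l = 1) :
    tr d x = 0 ∨ tr d x = 1 := by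
  induction d with
  | zero => exact h _
  | succ d ih =>
    simp only [tr, nae]
    rcases ih (fun l => x (Fin.cons 0 l)) (fun l => h _) with h0 | h0 <;>
    rcases ih (fun l => x (Fin.cons 1 l)) (fun l => h _) with h1 | h1 <;>
    rcases ih (fun l => x (Fin.cons 2 l)) (fun l => h _) with h2 | h2 <;>
    rw [h0, h1, h2] <;> norm_num

lemma tr_mem {R : Type} [CommRing R] [Algebra ℂ R] (V : ℕ → Submodule ℂ R) (hm : Monotone V)
    (hmul : ∀ s t f g, f ∈ V s → g ∈ V t → f * g ∈ V (s + t)) (d : ℕ)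
    (x : (Fin d → Fin 3) → R) (h : ∀ l, x l ∈ V 1) : tr d x ∈ V (2 ^ d) := by
  induction d with
  | zero => exact h _
  | succ d ih =>
    have h0 := ih (fun l => x (Fin.cons 0 l)) fun l => h _
    have h1 := ih (fun l => x (Fin.cons 1 l)) fun l => h _
    have h2 := ih (fun l => x (Fin.cons 2 l)) fun l => h _
    have e : 2 ^ (d + 1) = 2 ^ d + 2 ^ d := by ring
    have hle : V (2 ^ d) ≤ V (2 ^ d + 2 ^ d) := hm (Nat.le_add_right _ _)
    simp only [tr, nae, e]
    exact sub_mem (sub_mem (sub_mem (add_mem (add_mem (hle h0) (hle h1)) (hle h2))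
      (hmul _ _ _ _ h0 h1)) (hmul _ _ _ _ h1 h2)) (hmul _ _ _ _ h0 h2)

/-- The potential. -/
noncomputable def phi (p : ℝ) : ℝ := max (7 / 5 * (p - 2 / 3)) (2 / 3 - p)

lemma phi_cases (p : ℝ) : (p ≤ 2 / 3 ∧ phi p = 2 / 3 - p) ∨
    (2 / 3 ≤ p ∧ phi p = 7 / 5 * (p - 2 / 3)) := by
  rcases le_total p (2 / 3) with h | h
  · exact Or.inl ⟨h, max_eq_right (by linarith)⟩
  · exact Or.inr ⟨h, max_eq_left (by linarith)⟩

lemma nae_mem {a b c : ℝ} (a0 : 0 ≤ a) (a1 : a ≤ 1) (b0 : 0 ≤ b) (b1 : b ≤ 1) (c0 : 0 ≤ c)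
    (c1 : c ≤ 1) : 0 ≤ nae a b c ∧ nae a b c ≤ 1 := by
  have a2 := sub_nonneg.2 a1
  have b2 := sub_nonneg.2 b1
  have c2 := sub_nonneg.2 c1
  unfold nae
  constructor
  · nlinarith [mul_nonneg (mul_nonneg a0 b0) c2, mul_nonneg (mul_nonneg a0 b2) c0,
      mul_nonneg (mul_nonneg a2 b0) c0, mul_nonneg (mul_nonneg a0 b2) c2,
      mul_nonneg (mul_nonneg a2 b0) c2, mul_nonneg (mul_nonneg a2 b2) c0]
  · nlinarith [mul_nonneg (mul_nonneg a0 b0) c0, mul_nonneg (mul_nonneg a2 b2) c2]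

/-- A function that is affine in each variable and non-negative at the corners of a box is
non-negative on the box. -/
lemma box3 (f : ℝ → ℝ → ℝ → ℝ) (k0 k1 k2 k3 : ℝ)
    (hf : ∀ a b c, f a b c = k0 + k1 * a + k2 * b + k3 * c) (s : ℝ) {a b c la ua lb ub lc uc : ℝ}
    (a0 : la ≤ a) (a1 : a ≤ ua) (b0 : lb ≤ b) (b1 : b ≤ ub) (c0 : lc ≤ c) (c1 : c ≤ uc)
    (ha : la < ua) (hb : lb < ub) (hc : lc < uc)
    (h : ∀ x y z, (x = la ∨ x = ua) → (y = lb ∨ y = ub) → (z = lc ∨ z = uc) →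
      s * nae x y z ≤ f x y z) : s * nae a b c ≤ f a b c := by
  have key : ∀ (u l x p q : ℝ), l < u → l ≤ x → x ≤ u → 0 ≤ p + q * l → 0 ≤ p + q * u →
      0 ≤ p + q * x := by
    intro u l x p q _ h1 h2 h3 h4
    rcases le_total 0 q with hq | hq <;> nlinarith
  have s1 : ∀ x y, (x = la ∨ x = ua) → (y = lb ∨ y = ub) → s * nae x y c ≤ f x y c := by
    intro x y hx hy
    have h1 := h x y lc hx hy (Or.inl rfl)
    have h2 := h x y uc hx hy (Or.inr rfl)
    rw [hf] at h1 h2 ⊢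
    unfold nae at h1 h2 ⊢
    have := key uc lc c (k0 + k1 * x + k2 * y - s * (x + y - x * y)) (k3 - s * (1 - x - y)) hc c0 c1
      (by linarith) (by linarith)
    linarith
  have s2 : ∀ x, (x = la ∨ x = ua) → s * nae x b c ≤ f x b c := by
    intro x hx
    have h1 := s1 x lb hx (Or.inl rfl)
    have h2 := s1 x ub hx (Or.inr rfl)
    rw [hf] at h1 h2 ⊢
    unfold nae at h1 h2 ⊢
    have := key ub lb b (k0 + k1 * x + k3 * c - s * (x + c - x * c)) (k2 - s * (1 - x - c)) hb b0 b1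
      (by linarith) (by linarith)
    linarith
  have h1 := s2 la (Or.inl rfl)
  have h2 := s2 ua (Or.inr rfl)
  rw [hf] at h1 h2 ⊢
  unfold nae at h1 h2 ⊢
  have := key ua la a (k0 + k2 * b + k3 * c - s * (b + c - b * c)) (k1 - s * (1 - b - c)) ha a0 a1
    (by linarith) (by linarith)
  linarith

lemma phi_lin {p : ℝ} (p0 : 0 ≤ p) (p1 : p ≤ 1) : ∃ l u k0 k1 : ℝ, l ≤ p ∧ p ≤ u ∧ l < u ∧
    phi p = k0 + k1 * p ∧ ((l = 0 ∧ u = 2 / 3 ∧ k0 = 2 / 3 ∧ k1 = -1) ∨
      (l = 2 / 3 ∧ u = 1 ∧ k0 = -14 / 15 ∧ k1 = 7 / 5)) := by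
  rcases phi_cases p with ⟨h, e⟩ | ⟨h, e⟩
  · exact ⟨0, 2 / 3, 2 / 3, -1, p0, h, by norm_num, by rw [e]; ring, Or.inl ⟨rfl, rfl, rfl, rfl⟩⟩
  · exact ⟨2 / 3, 1, -14 / 15, 7 / 5, h, p1, by norm_num, by rw [e]; ring,
      Or.inr ⟨rfl, rfl, rfl, rfl⟩⟩

lemma nae_phi {a b c : ℝ} (a0 : 0 ≤ a) (a1 : a ≤ 1) (b0 : 0 ≤ b) (b1 : b ≤ 1) (c0 : 0 ≤ c)
    (c1 : c ≤ 1) : phi (nae a b c) ≤ 10 / 21 * (phi a + phi b + phi c) := by
  obtain ⟨la, ua, ka, ka', a2, a3, a4, ea, ca⟩ := phi_lin a0 a1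
  obtain ⟨lb, ub, kb, kb', b2, b3, b4, eb, cb⟩ := phi_lin b0 b1
  obtain ⟨lc, uc, kc, kc', c2, c3, c4, ec, cc⟩ := phi_lin c0 c1
  rw [ea, eb, ec]
  refine max_le ?_ ?_
  · have := box3 (fun x y z => 14 / 15 + 10 / 21 * (ka + ka' * x + (kb + kb' * y) + (kc + kc' * z)))
      (14 / 15 + 10 / 21 * (ka + kb + kc)) (10 / 21 * ka') (10 / 21 * kb') (10 / 21 * kc')
      (fun _ _ _ => by ring) (7 / 5) a2 a3 b2 b3 c2 c3 a4 b4 c4 (by
        rcases ca with ⟨rfl, rfl, rfl, rfl⟩ | ⟨rfl, rfl, rfl, rfl⟩ <;>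
        rcases cb with ⟨rfl, rfl, rfl, rfl⟩ | ⟨rfl, rfl, rfl, rfl⟩ <;>
        rcases cc with ⟨rfl, rfl, rfl, rfl⟩ | ⟨rfl, rfl, rfl, rfl⟩ <;>
        rintro x y z (rfl | rfl) (rfl | rfl) (rfl | rfl) <;> norm_num [nae])
    linarith
  · have := box3 (fun x y z => -2 / 3 + 10 / 21 * (ka + ka' * x + (kb + kb' * y) + (kc + kc' * z)))
      (-2 / 3 + 10 / 21 * (ka + kb + kc)) (10 / 21 * ka') (10 / 21 * kb') (10 / 21 * kc')
      (fun _ _ _ => by ring) (-1) a2 a3 b2 b3 c2 c3 a4 b4 c4 (by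
        rcases ca with ⟨rfl, rfl, rfl, rfl⟩ | ⟨rfl, rfl, rfl, rfl⟩ <;>
        rcases cb with ⟨rfl, rfl, rfl, rfl⟩ | ⟨rfl, rfl, rfl, rfl⟩ <;>
        rcases cc with ⟨rfl, rfl, rfl, rfl⟩ | ⟨rfl, rfl, rfl, rfl⟩ <;>
        rintro x y z (rfl | rfl) (rfl | rfl) (rfl | rfl) <;> norm_num [nae])
    linarith

lemma sum_cons {d : ℕ} (f : (Fin (d + 1) → Fin 3) → ℝ) :
    ∑ l, f l = ∑ l, f (Fin.cons 0 l) + ∑ l, f (Fin.cons 1 l) + ∑ l, f (Fin.cons 2 l) := by
  rw [← (Fin.consEquiv fun _ : Fin (d + 1) => Fin 3).sum_comp, Fintype.sum_prod_type,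
    Fin.sum_univ_three]
  rfl

lemma tr_phi (d : ℕ) (y : (Fin d → Fin 3) → ℝ) (h : ∀ l, 0 ≤ y l ∧ y l ≤ 1) :
    (0 ≤ tr d y ∧ tr d y ≤ 1) ∧ phi (tr d y) ≤ (10 / 21) ^ d * ∑ l, phi (y l) := by
  induction d with
  | zero =>
    refine ⟨h _, ?_⟩
    rw [Fintype.sum_unique, pow_zero, one_mul]
    exact le_of_eq (congrArg (fun l => phi (y l)) (Subsingleton.elim _ _))
  | succ d ih =>
    obtain ⟨⟨a0, a1⟩, a2⟩ := ih (fun l => y (Fin.cons 0 l)) fun l => h _
    obtain ⟨⟨b0, b1⟩, b2⟩ := ih (fun l => y (Fin.cons 1 l)) fun l => h _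
    obtain ⟨⟨c0, c1⟩, c2⟩ := ih (fun l => y (Fin.cons 2 l)) fun l => h _
    refine ⟨nae_mem a0 a1 b0 b1 c0 c1, (nae_phi a0 a1 b0 b1 c0 c1).trans ?_⟩
    rw [sum_cons fun l => phi (y l), pow_succ]
    linarith

section Prob

variable {C : Type} [Fintype C] [DecidableEq C]

/-- `f` depends only on the cells in `S`. -/
def Dep (f : (C → Fin 3) → ℝ) (S : Finset C) : Prop :=
  ∀ ω ω', (∀ c ∈ S, ω c = ω' c) → f ω = f ω'

lemma expect_pw (S : Finset C) (Φ : (C → Fin 3) → ℝ) :
    𝔼 ω, 𝔼 ω', Φ (S.piecewise ω ω') = 𝔼 ω, Φ ω := by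
  have hinv : Function.Involutive fun p : (C → Fin 3) × (C → Fin 3) =>
      (S.piecewise p.1 p.2, S.piecewise p.2 p.1) := by
    rintro ⟨a, b⟩
    refine Prod.ext ?_ ?_ <;> funext c <;> by_cases h : c ∈ S <;> simp [h]
  have h1 := Fintype.expect_equiv hinv.toPerm (fun p => Φ (S.piecewise p.1 p.2))
    (fun p => Φ p.1) fun _ => rfl
  rw [← univ_product_univ, expect_product, expect_product] at h1
  rw [h1]
  exact expect_congr rfl fun ω _ => expect_const univ_nonempty (Φ ω)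

lemma expect_cond {S : Finset C} {R : (C → Fin 3) → ℝ} (hR : Dep R S) (F : (C → Fin 3) → ℝ) :
    𝔼 ω, R ω * F ω = 𝔼 ω, R ω * 𝔼 ω', F (S.piecewise ω ω') := by
  rw [← expect_pw S]
  refine expect_congr rfl fun ω _ => ?_
  rw [mul_expect]
  refine expect_congr rfl fun ω' _ => ?_
  rw [hR (S.piecewise ω ω') ω fun c hc => by simp [hc]]

lemma expect_indep {S S' : Finset C} {F G : (C → Fin 3) → ℝ} (hF : Dep F S) (hG : Dep G S')
    (h : Disjoint S S') : 𝔼 ω, F ω * G ω = (𝔼 ω, F ω) * 𝔼 ω, G ω := by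
  rw [expect_cond hF, expect_mul]
  refine expect_congr rfl fun ω _ => ?_
  congr 1
  refine expect_congr rfl fun ω' _ => hG _ _ fun c hc => ?_
  have : c ∉ S := fun h' => disjoint_left.1 h h' hc
  simp [this]

lemma expect_coord (c : C) (h : Fin 3 → ℝ) : 𝔼 ω : C → Fin 3, h (ω c) = 𝔼 t, h t := by
  rw [Fintype.expect_equiv (Equiv.funSplitAt c (Fin 3)) (fun ω => h (ω c)) (fun p => h p.1)
    fun _ => rfl, ← univ_product_univ, expect_product]
  exact expect_congr rfl fun ω _ => expect_const univ_nonempty (h ω)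

lemma expect_tr (d : ℕ) (lam : (Fin d → Fin 3) → C) (hl : Function.Injective lam)
    (x : (Fin d → Fin 3) → Fin 3 → ℝ) :
    𝔼 ω : C → Fin 3, tr d (fun l => x l (ω (lam l))) = tr d fun l => 𝔼 t, x l t := by
  induction d with
  | zero => exact expect_coord _ _
  | succ d ih =>
    have hdep : ∀ s : Fin 3, Dep (fun ω => tr d fun l => x (Fin.cons s l) (ω (lam (Fin.cons s l))))
        (univ.image fun l => lam (Fin.cons s l)) := fun s ω ω' h => by
      simp only
      congr 1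
      funext l
      rw [h _ (mem_image_of_mem _ (mem_univ l))]
    have hdis : ∀ s s' : Fin 3, s ≠ s' → Disjoint
        (univ.image fun l : Fin d → Fin 3 => lam (Fin.cons s l))
        (univ.image fun l : Fin d → Fin 3 => lam (Fin.cons s' l)) := fun s s' hs => by
      rw [disjoint_left]
      intro c h1 h2
      obtain ⟨l, -, rfl⟩ := mem_image.1 h1
      obtain ⟨l', -, h3⟩ := mem_image.1 h2
      exact hs (congrFun (hl h3) 0).symm
    have hE : ∀ s : Fin 3, 𝔼 ω : C → Fin 3,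
        (tr d fun l => x (Fin.cons s l) (ω (lam (Fin.cons s l)))) =
        tr d fun l => 𝔼 t, x (Fin.cons s l) t := fun s =>
      ih (fun l => lam (Fin.cons s l)) (fun a b h => Fin.cons_right_injective _ (hl h)) _
    simp only [tr, nae, expect_sub_distrib, expect_add_distrib]
    rw [expect_indep (hdep 0) (hdep 1) (hdis _ _ (by decide)),
      expect_indep (hdep 1) (hdep 2) (hdis _ _ (by decide)),
      expect_indep (hdep 0) (hdep 2) (hdis _ _ (by decide)), hE, hE, hE]

/-- A bit that is one with probability two thirds. -/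
def bit (t : Fin 3) : ℝ := if t = 0 then 0 else 1

lemma bit_cases (t : Fin 3) : bit t = 0 ∨ bit t = 1 := by
  unfold bit; split_ifs <;> simp

lemma expect_bit : 𝔼 t, bit t = 2 / 3 := by
  rw [expect_eq_sum_div_card, Fin.sum_univ_three]
  simp [bit]
  norm_num

/-- The conditional probability that a tree evaluates to one. -/
lemma cond_tree (d : ℕ) (lam : (Fin d → Fin 3) → C) (hl : Function.Injective lam)
    (S : Finset C) (ω : C → Fin 3) :
    phi (𝔼 ω', tr d fun l => bit (S.piecewise ω ω' (lam l))) ≤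
      (10 / 21) ^ d * (2 / 3 * (univ.filter fun l => lam l ∈ S).card) := by
  have e : ∀ ω' : C → Fin 3, (fun l => bit (S.piecewise ω ω' (lam l))) =
      fun l => (fun t => if lam l ∈ S then bit (ω (lam l)) else bit t) (ω' (lam l)) := by
    intro ω'
    funext l
    by_cases h : lam l ∈ S <;> simp [h]
  simp only [e]
  rw [expect_tr d lam hl fun l t => if lam l ∈ S then bit (ω (lam l)) else bit t]
  have e2 : ∀ l, (𝔼 t, if lam l ∈ S then bit (ω (lam l)) else bit t) =
      if lam l ∈ S then bit (ω (lam l)) else 2 / 3 := fun l => by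
    split_ifs
    · exact expect_const univ_nonempty _
    · exact expect_bit
  simp only [e2]
  refine (tr_phi d _ fun l => ?_).2.trans (mul_le_mul_of_nonneg_left ?_ (by positivity))
  · split_ifs
    · rcases bit_cases (ω (lam l)) with h | h <;> rw [h] <;> norm_num
    · norm_num
  · rw [card_filter]
    push_cast
    rw [mul_sum]
    refine sum_le_sum fun l _ => ?_
    split_ifs
    · rcases bit_cases (ω (lam l)) with h | h <;> rw [h] <;> norm_num [phi]
    · norm_num [phi]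

variable {I : Type} [DecidableEq I] {d : ℕ} (lam : I → (Fin d → Fin 3) → C)

/-- The value of the tree of an item. -/
def val (ω : C → Fin 3) (t : I) : ℝ := tr d fun l => bit (ω (lam t l))

/-- The cells read by a set of items. -/
def cells (J : Finset I) : Finset C := J.biUnion fun t => univ.image (lam t)

lemma val_cases (ω : C → Fin 3) (t : I) : val lam ω t = 0 ∨ val lam ω t = 1 :=
  tr_bool _ _ fun _ => bit_cases _

lemma val_nonneg (ω : C → Fin 3) (t : I) : 0 ≤ val lam ω t := by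
  rcases val_cases lam ω t with h | h <;> simp [h]

lemma dep_prod (J : Finset I) : Dep (fun ω => ∏ t ∈ J, val lam ω t) (cells lam J) := by
  intro ω ω' h
  refine prod_congr rfl fun t ht => ?_
  unfold val
  congr 1
  funext l
  rw [h _ (mem_biUnion.2 ⟨t, ht, mem_image_of_mem _ (mem_univ l)⟩)]

lemma prob_upper (hl : ∀ t, Function.Injective (lam t)) (J : Finset I) :
    𝔼 ω, ∏ t ∈ J, val lam ω t ≤ (2 / 3) ^ J.card *
      Real.exp (5 / 7 * (10 / 21) ^ d * (3 ^ d * J.card - (cells lam J).card)) := by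
  induction J using Finset.induction_on with
  | empty => simp [cells]
  | insert t J ht ih =>
    simp only [prod_insert ht, mul_comm (val lam _ t)]
    rw [expect_cond (dep_prod lam J)]
    set o : ℕ := (univ.filter fun l => lam t l ∈ cells lam J).card with ho
    have h1 : ∀ ω, 𝔼 ω', val lam ((cells lam J).piecewise ω ω') t ≤
        2 / 3 * Real.exp (5 / 7 * (10 / 21) ^ d * o) := fun ω => by
      have h2 := (le_max_left _ _).trans (cond_tree d (lam t) (hl t) (cells lam J) ω)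
      have h3 := Real.add_one_le_exp (5 / 7 * (10 / 21) ^ d * (o : ℝ))
      rw [← ho] at h2
      unfold val
      linarith
    have h2 : (cells lam (insert t J)).card + o = 3 ^ d + (cells lam J).card := by
      have e1 : cells lam (insert t J) = univ.image (lam t) ∪ cells lam J := by
        simp [cells]
      have e2 : o = (univ.image (lam t) ∩ cells lam J).card := by
        rw [ho, ← card_image_of_injective _ (hl t)]
        congr 1
        ext c
        simp only [mem_image, mem_filter, mem_univ, true_and, mem_inter]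
        constructor
        · rintro ⟨l, h, rfl⟩; exact ⟨⟨l, rfl⟩, h⟩
        · rintro ⟨⟨l, rfl⟩, h⟩; exact ⟨l, h, rfl⟩
      rw [e1, e2, card_union_add_card_inter, card_image_of_injective _ (hl t)]
      simp
    have h3 : ((cells lam (insert t J)).card : ℝ) + o = 3 ^ d + (cells lam J).card := by
      exact_mod_cast h2
    calc _ ≤ 𝔼 ω, (∏ t ∈ J, val lam ω t) * (2 / 3 * Real.exp (5 / 7 * (10 / 21) ^ d * o)) :=
          expect_le_expect fun ω _ => mul_le_mul_of_nonneg_left (h1 ω)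
            (prod_nonneg fun t _ => val_nonneg lam ω t)
      _ = (𝔼 ω, ∏ t ∈ J, val lam ω t) * (2 / 3 * Real.exp (5 / 7 * (10 / 21) ^ d * o)) :=
          (expect_mul _ _ _).symm
      _ ≤ _ := mul_le_mul_of_nonneg_right ih (by positivity)
      _ = _ := by
          rw [card_insert_of_notMem ht, pow_succ, mul_mul_mul_comm, ← Real.exp_add]
          congr 2
          push_cast
          linear_combination (5 / 7 * (10 / 21) ^ d) * h3

lemma prob_lower (hl : ∀ t, Function.Injective (lam t)) (J : Finset I)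
    (hd : ∀ t ∈ J, ∀ t' ∈ J, ∀ l l', lam t l = lam t' l' → t = t') :
    (2 / 3) ^ J.card ≤ 𝔼 ω, ∏ t ∈ J, val lam ω t := by
  induction J using Finset.induction_on with
  | empty => simp
  | insert t J ht ih =>
    simp only [prod_insert ht, mul_comm (val lam _ t)]
    rw [expect_cond (dep_prod lam J)]
    have ho : (univ.filter fun l => lam t l ∈ cells lam J).card = 0 := by
      rw [card_eq_zero, filter_eq_empty_iff]
      intro l _ h
      obtain ⟨t', h1, h2⟩ := mem_biUnion.1 h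
      obtain ⟨l', -, h3⟩ := mem_image.1 h2
      exact ht (hd t' (mem_insert_of_mem h1) t (mem_insert_self _ _) _ _ h3 ▸ h1)
    have h1 : ∀ ω, 2 / 3 ≤ 𝔼 ω', val lam ((cells lam J).piecewise ω ω') t := fun ω => by
      have h2 := (le_max_right _ _).trans (cond_tree d (lam t) (hl t) (cells lam J) ω)
      rw [ho] at h2
      unfold val
      simp only [Nat.cast_zero, mul_zero] at h2
      linarith
    calc _ = (2 / 3) ^ J.card * (2 / 3 : ℝ) := by rw [card_insert_of_notMem ht, pow_succ]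
      _ ≤ (𝔼 ω, ∏ t ∈ J, val lam ω t) * (2 / 3) := mul_le_mul_of_nonneg_right
          (ih fun a ha b hb => hd a (mem_insert_of_mem ha) b (mem_insert_of_mem hb)) (by norm_num)
      _ = 𝔼 ω, (∏ t ∈ J, val lam ω t) * (2 / 3) := expect_mul _ _ _
      _ ≤ _ := expect_le_expect fun ω _ => mul_le_mul_of_nonneg_left (h1 ω)
            (prod_nonneg fun t _ => val_nonneg lam ω t)

end Prob

end Pool.Agent.MP_36f78e_lc.H24.Cl
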