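import Mathlib
import Pool.Agent.MP_36f78e_lc.H24.Cl.Tree
import Pool.Agent.MP_36f78e_lc.H24.Cl.Guv
import Pool.Agent.MP_36f78e_lc.H24.Cl.Test

/-!
A family of sets with sparse Fourier transform that are hard to sample.
-/

set_option linter.unusedSectionVars false

namespace Pool.Agent.MP_36f78e_lc.H24.Cl

open Finset
open scoped BigOperators Pointwise

variable {N : ℕ}

/-- Bit strings as vectors over the field with two elements. -/
def toZ (z : Fin N → Bool) : Fin N → ZMod 2 := fun i => if z i = true then 1 else 0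

lemma toZ_eq_one (z : Fin N → Bool) (i : Fin N) : toZ z i = 1 ↔ z i = true := by
  unfold toZ
  cases z i <;> simp

lemma toZ_bij : Function.Bijective (toZ (N := N)) := by
  rw [Fintype.bijective_iff_injective_and_card]
  refine ⟨fun z w h => funext fun i => ?_, by simp⟩
  rw [Bool.eq_iff_iff, ← toZ_eq_one, ← toZ_eq_one, h]

/-- The character attached to a bit string. -/
def chi (e : Fin N → Bool) : AddChar (Fin N → ZMod 2) ℂ where
  toFun x := ∏ i, if e i = true ∧ x i = 1 then -1 else 1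
  map_zero_eq_one' := by simp
  map_add_eq_mul' x y := by
    rw [← prod_mul_distrib]
    refine prod_congr rfl fun i _ => ?_
    rw [Pi.add_apply]
    generalize x i = a
    generalize y i = b
    have h : ∀ c : ZMod 2, c = 0 ∨ c = 1 := by decide
    have h2 : (1 + 1 : ZMod 2) = 0 := by decide
    rcases h a with rfl | rfl <;> rcases h b with rfl | rfl <;> cases e i <;> simp [h2]

lemma chi_apply (e : Fin N → Bool) (x : Fin N → ZMod 2) :
    chi e x = ∏ i, if e i = true ∧ x i = 1 then -1 else 1 := rfl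

lemma chi_toZ (e z : Fin N → Bool) : chi e (toZ z) = sgn e z := by
  simp only [chi_apply, toZ_eq_one, sgn]

lemma chi_sq (e : Fin N → Bool) : chi e * chi e = 1 := by
  ext x
  rw [AddChar.mul_apply, chi_apply, ← prod_mul_distrib]
  exact prod_eq_one fun i _ => by split_ifs <;> simp

lemma chi_single (e : Fin N → Bool) (i : Fin N) :
    chi e (Pi.single i 1) = if e i = true then -1 else 1 := by
  rw [chi_apply, prod_eq_single i (fun j _ hj => by simp [hj]) (by simp)]
  simp

lemma chi_inj : Function.Injective (chi (N := N)) := by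
  intro e e' h
  funext i
  have h1 := chi_single e i
  rw [h, chi_single] at h1
  revert h1
  cases e i <;> cases e' i <;> norm_num

section Span

variable {Z : Type} [AddCommGroup Z] [Fintype Z]

open Classical in
/-- The span of the products of `t` characters from `G`. -/
noncomputable def sp (G : Finset (AddChar Z ℂ)) (t : ℕ) : Submodule ℂ (Z → ℂ) :=
  Submodule.span ℂ ((fun ψ : AddChar Z ℂ => (ψ : Z → ℂ)) '' (G ^ t : Finset (AddChar Z ℂ)))

lemma sp_mono {G : Finset (AddChar Z ℂ)} (h : 1 ∈ G) : Monotone (sp G) := by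
  classical
  exact fun s t hst => Submodule.span_mono (Set.image_mono (Finset.pow_right_monotone h hst))

lemma sp_mul (G : Finset (AddChar Z ℂ)) (s t : ℕ) (f g : Z → ℂ) (hf : f ∈ sp G s)
    (hg : g ∈ sp G t) : f * g ∈ sp G (s + t) := by
  classical
  have h := Submodule.mul_mem_mul hf hg
  rw [sp, sp, Submodule.span_mul_span] at h
  refine Submodule.span_mono ?_ h
  rintro _ ⟨_, ⟨a, ha, rfl⟩, _, ⟨b, hb, rfl⟩, rfl⟩
  refine ⟨a * b, ?_, rfl⟩
  rw [pow_add]
  exact mem_coe.2 (mul_mem_mul ha hb)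

lemma sp_one (G : Finset (AddChar Z ℂ)) : (1 : Z → ℂ) ∈ sp G 0 := by
  classical
  exact Submodule.subset_span ⟨1, by simp, rfl⟩

lemma sp_prod {J : Type} (G : Finset (AddChar Z ℂ)) (s : Finset J) (f : J → Z → ℂ) (t : ℕ)
    (h : ∀ j, f j ∈ sp G t) : ∏ j ∈ s, f j ∈ sp G (s.card * t) := by
  classical
  induction s using Finset.induction_on with
  | empty => simpa using sp_one G
  | insert j s hj ih =>
    rw [prod_insert hj, card_insert_of_notMem hj, add_mul, one_mul, add_comm]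
    exact sp_mul G _ _ _ _ (h j) ih

lemma sp_comp {S : Type} [AddCommGroup S] [Fintype S] (G : Finset (AddChar Z ℂ)) (π : Z →+ S)
    (h : ∀ ψ : AddChar S ℂ, ψ.compAddMonoidHom π ∈ G) (F : S → ℂ) :
    (fun x => F (π x)) ∈ sp G 1 := by
  classical
  have e : (fun x => F (π x)) = ∑ ψ : AddChar S ℂ,
      (AddChar.complexBasis S).repr F ψ • (ψ.compAddMonoidHom π : Z → ℂ) := by
    funext x
    have := congrFun ((AddChar.complexBasis S).sum_repr F) (π x)
    simpa using this.symm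
  rw [e]
  exact sum_mem fun ψ _ => Submodule.smul_mem _ _
    (Submodule.subset_span ⟨_, by simpa using h ψ, rfl⟩)

open Classical in
lemma sp_orth (G : Finset (AddChar Z ℂ)) (t : ℕ) (χ : AddChar Z ℂ) (h2 : χ * χ = 1)
    (hχ : χ ∉ G ^ t) (f : Z → ℂ) (hf : f ∈ sp G t) : ∑ x, f x * χ x = 0 := by
  induction hf using Submodule.span_induction with
  | mem g hg =>
    obtain ⟨ψ, hψ, rfl⟩ := hg
    refine (AddChar.sum_eq_zero_iff_ne_zero (ψ := ψ * χ)).2 fun h => hχ ?_
    have h3 : ψ * χ = 1 := h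
    have h4 : ψ = χ := by rw [← one_mul χ, ← h3, mul_assoc, h2, mul_one]
    exact h4 ▸ hψ
  | zero => simp
  | add f g _ _ h1 h2 => simp [add_mul, sum_add_distrib, h1, h2]
  | smul a f _ h1 => simp [mul_assoc, ← mul_sum, h1]

end Span

lemma prod_ind {J : Type} (s : Finset J) (f : J → ℝ) (h : ∀ j, f j = 0 ∨ f j = 1)
    (P : Prop) [Decidable P] (hP : P ↔ ∀ j ∈ s, f j = 1) :
    (if P then 1 else 0 : ℝ) = ∏ j ∈ s, f j := by
  split_ifs with h1
  · exact (prod_eq_one (hP.1 h1)).symm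
  · rw [hP] at h1
    push Not at h1
    obtain ⟨j, hj, h2⟩ := h1
    exact (prod_eq_zero hj ((h j).resolve_right h2)).symm

theorem exists_family (r k m B d : ℕ) (hr : r ≠ 0) (hk : 2 ≤ k) (hB : B ≠ 0)
    (hn : B * 3 ^ d ≤ 2 ^ r) :
    ∃ (G : Finset (Fin (r * k) → Bool)) (Ω : Type) (_ : Fintype Ω) (_ : Nonempty Ω)
      (O : Ω → Finset (Fin (r * k) → Bool)), G.card ≤ 2 ^ (r * (m + 1) * (B * 2 ^ d)) ∧
      (∀ ω, ∀ e ∉ G, ∑ z ∈ O ω, sgn e z = 0) ∧
      (∀ Y : Finset (Fin (r * k) → Bool), Y.card ≤ 2 ^ m →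
        𝔼 ω, (if Y ⊆ O ω then 1 else 0 : ℝ) ≤
          ((2 / 3) ^ B * Real.exp (5 / 7 * (10 / 21) ^ d * ((k - 1) * m : ℕ))) ^ Y.card) ∧
      ∀ z, (2 / 3) ^ B ≤ 𝔼 ω, (if z ∈ O ω then 1 else 0 : ℝ) := by
  classical
  have : NeZero B := ⟨hB⟩
  have hι : Fintype.card (Fin B × (Fin d → Fin 3)) = B * 3 ^ d := by simp
  obtain ⟨S, _, _, _, π, hS, hπ⟩ :=
    exists_expander r k m hr hk (Fin B × (Fin d → Fin 3)) (hι ▸ hn)
  let lam : (Fin (r * k) → Bool) × Fin B → (Fin d → Fin 3) → (Σ _ : Fin B × (Fin d → Fin 3), S) :=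
    fun t l => ⟨(t.2, l), π (t.2, l) (toZ t.1)⟩
  have hl : ∀ t, Function.Injective (lam t) := fun t a b h =>
    (Prod.mk.inj (Sigma.mk.inj_iff.1 h).1).2
  let G1 : Finset (AddChar (Fin (r * k) → ZMod 2) ℂ) :=
    univ.image fun x : (Fin B × (Fin d → Fin 3)) × AddChar S ℂ => x.2.compAddMonoidHom (π x.1)
  have hG1 : ∀ i (ψ : AddChar S ℂ), ψ.compAddMonoidHom (π i) ∈ G1 := fun i ψ =>
    mem_image_of_mem _ (mem_univ (i, ψ))
  refine ⟨univ.filter fun e => chi e ∈ G1 ^ (B * 2 ^ d), (Σ _ : Fin B × (Fin d → Fin 3), S) → Fin 3,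
    inferInstance, inferInstance, fun ω => univ.filter fun z => ∀ j, val lam ω (z, j) = 1,
    ?_, fun ω e he => ?_, fun Y hY => ?_, fun z => ?_⟩
  · refine (card_le_card_of_injOn chi (t := G1 ^ (B * 2 ^ d)) (fun e he => (mem_filter.1 he).2)
      chi_inj.injOn).trans (card_pow_le.trans ?_)
    rw [pow_mul 2]
    refine Nat.pow_le_pow_left ?_ _
    refine (card_image_le (s := univ)).trans ?_
    rw [card_univ, Fintype.card_prod, AddChar.card_eq, hS, hι, mul_add, mul_one, pow_add, mul_comm]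
    exact Nat.mul_le_mul_left _ hn
  · have h1 : (1 : AddChar (Fin (r * k) → ZMod 2) ℂ) ∈ G1 := hG1 default 1
    have h2 := sp_prod G1 (univ : Finset (Fin B))
      (fun j => tr d fun l x => (bit (ω ⟨(j, l), π (j, l) x⟩) : ℂ)) (2 ^ d) fun j =>
        tr_mem (sp G1) (sp_mono h1) (sp_mul G1) d _ fun l =>
          sp_comp G1 (π (j, l)) (hG1 _) fun s => (bit (ω ⟨(j, l), s⟩) : ℂ)
    rw [card_univ, Fintype.card_fin] at h2
    have h3 := sp_orth G1 _ (chi e) (chi_sq e) (by simpa using he) _ h2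
    rw [← toZ_bij.sum_comp] at h3
    rw [← h3, sum_filter]
    refine sum_congr rfl fun z _ => ?_
    have h4 := prod_ind univ (fun j => val lam ω (z, j)) (fun j => val_cases lam ω _)
      (∀ j, val lam ω (z, j) = 1) (by simp)
    have h5 : (∏ j : Fin B, tr d fun l x => (bit (ω ⟨(j, l), π (j, l) x⟩) : ℂ)) (toZ z) =
        ((∏ j, val lam ω (z, j) : ℝ) : ℂ) := by
      rw [Finset.prod_apply, Complex.ofReal_prod]
      refine prod_congr rfl fun j _ => ?_
      exact (map_tr (Pi.evalRingHom (fun _ => ℂ) (toZ z)) d _).trans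
        (map_tr Complex.ofRealHom d _).symm
    rw [h5, ← h4, chi_toZ]
    split_ifs <;> simp
  · have h1 := prob_upper lam hl (Y ×ˢ univ)
    have h2 : ∀ ω, (if Y ⊆ univ.filter fun z => ∀ j, val lam ω (z, j) = 1 then 1 else 0 : ℝ) =
        ∏ t ∈ Y ×ˢ univ, val lam ω t := fun ω =>
      prod_ind _ _ (val_cases lam ω) _ (by
        simp only [subset_iff, mem_filter, mem_univ, true_and, mem_product, and_true, Prod.forall]
        exact ⟨fun h a b ha => h ha b, fun h a ha b => h a b ha⟩)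
    have h3 : cells lam (Y ×ˢ univ) = univ.sigma fun i => (Y.image toZ).image (π i) := by
      ext ⟨⟨j, l⟩, s⟩
      simp only [cells, mem_biUnion, mem_product, mem_univ, and_true, mem_image, true_and,
        mem_sigma, lam, Prod.exists, Sigma.mk.injEq, Prod.mk.injEq, heq_eq_eq]
      constructor
      · rintro ⟨z, j', hz, l', ⟨rfl, rfl⟩, h⟩
        exact ⟨_, ⟨z, hz, rfl⟩, h⟩
      · rintro ⟨_, ⟨z, hz, rfl⟩, h⟩
        exact ⟨z, j, hz, l, ⟨rfl, rfl⟩, h⟩
    have h4 : (Y.image toZ).card = Y.card := card_image_of_injective _ toZ_bij.1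
    have h5 := hπ (Y.image toZ) (by rw [h4]; exact hY)
    rw [h4, hι, ← card_sigma, ← h3] at h5
    have h6 : ((B * 3 ^ d * Y.card : ℕ) : ℝ) ≤
        ((cells lam (Y ×ˢ univ)).card + (k - 1) * m * Y.card : ℕ) := by exact_mod_cast h5
    simp only [h2]
    refine h1.trans ?_
    rw [card_product, card_univ, Fintype.card_fin, mul_pow, ← pow_mul, ← Real.exp_nat_mul,
      mul_comm Y.card B]
    refine mul_le_mul_of_nonneg_left (Real.exp_le_exp.2 ?_) (by positivity)
    rw [mul_comm (Y.card : ℝ), mul_assoc (5 / 7 * (10 / 21) ^ d)]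
    refine mul_le_mul_of_nonneg_left ?_ (by positivity)
    generalize (k - 1) * m = D at h6 ⊢
    push_cast at h6 ⊢
    linarith
  · have h1 := prob_lower lam hl ({z} ×ˢ univ) (by
      rintro ⟨a, j⟩ ha ⟨b, j'⟩ hb l l' h
      have h1 := (Prod.mk.inj (Sigma.mk.inj_iff.1 h).1).1
      simp only [mem_product, mem_singleton] at ha hb
      exact Prod.ext (ha.1.trans hb.1.symm) h1)
    have h2 : ∀ ω, (if z ∈ univ.filter fun z => ∀ j, val lam ω (z, j) = 1 then 1 else 0 : ℝ) =
        ∏ t ∈ {z} ×ˢ univ, val lam ω t := fun ω =>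
      prod_ind _ _ (val_cases lam ω) _ (by simp)
    simp only [h2]
    simpa using h1

end Pool.Agent.MP_36f78e_lc.H24.Cl
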