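import Mathlib
import Pool.Agent.MP_36f78e_lc.H24.Cl.Fam

/-!
The lower bound for classical witnesses and the diagonalisation.
-/

set_option linter.unusedSectionVars false

namespace Pool.Agent.MP_36f78e_lc.H24.Cl

open Finset
open scoped BigOperators

/-- The oracle that holds `O` and `G` on strings of length `N + 1`. -/
def orc {N : ℕ} (A0 : List Bool → Bool) (G O : Finset (Fin N → Bool)) : List Bool → Bool :=
  fun s => if s.length = N + 1 then
    decide (s ∈ O.image (fun z => false :: List.ofFn z) ∨ s ∈ G.image fun z => true :: List.ofFn z)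
  else A0 s

lemma part_orc_false {N : ℕ} (A0 : List Bool → Bool) (G O : Finset (Fin N → Bool)) :
    part (orc A0 G O) N false = O := by
  ext z
  simp [part, orc, List.ofFn_injective.eq_iff]

lemma part_orc_true {N : ℕ} (A0 : List Bool → Bool) (G O : Finset (Fin N → Bool)) :
    part (orc A0 G O) N true = G := by
  ext z
  simp [part, orc, List.ofFn_injective.eq_iff]

lemma enc_inj {N : ℕ} : Function.Injective fun z : Fin N → Bool => false :: List.ofFn z :=
  fun _ _ h => List.ofFn_injective (List.cons.inj h).2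

lemma orc_agree {N : ℕ} (A0 : List Bool → Bool) (G : Finset (Fin N → Bool))
    {O Δ : Finset (Fin N → Bool)} (h : Δ ⊆ O) :
    ∀ s ∉ (O \ Δ).image (fun z => false :: List.ofFn z), orc A0 G Δ s = orc A0 G O s := by
  intro s hs
  unfold orc
  split_ifs
  · refine decide_eq_decide.2 (or_congr_left ⟨fun h1 => image_subset_image h h1, fun h1 => ?_⟩)
    obtain ⟨z, hz, rfl⟩ := mem_image.1 h1
    by_contra h2
    exact hs (mem_image_of_mem _ (mem_sdiff.2 ⟨hz, fun h3 => h2 (mem_image_of_mem _ h3)⟩))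
  · rfl

/-- The verifier is wrong on inputs of length `n`. -/
def Wrong (V : Verifier) (n : ℕ) (A : List Bool → Bool) : Prop :=
  (Yes A n ∧ ∀ y, V.accProb A (Pi.single y 1) < 2 / 3) ∨
    (No A n ∧ ∃ y, 1 / 3 < V.accProb A (Pi.single y 1))

theorem finite_bound (V : Verifier) (hV : V.Valid) (A0 : List Bool → Bool) (r k m B d : ℕ)
    (hr : r ≠ 0) (hk : 2 ≤ k) (hB : B ≠ 0) (hn : B * 3 ^ d ≤ 2 ^ r)
    (hno : r * (m + 1) * (B * 2 ^ d) + m + 2 ≤ r * k)
    (hρ : 5 / 7 * (10 / 21 : ℝ) ^ d * ((k - 1) * m : ℕ) ≤ B * (1 / 10))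
    (hT : 576 * (V.queries + 1) ^ 2 * 3 ^ B ≤ 4 ^ B) (hp : V.p + B < 2 * 2 ^ m) :
    ∃ A : List Bool → Bool, (∀ s, s.length ≠ r * k + 1 → A s = A0 s) ∧ Wrong V (r * k) A := by
  obtain ⟨G, Ω, _, _, O, hG, hO, hup, hlo⟩ := exists_family r k m B d hr hk hB hn
  by_contra hcon
  have hc : ∀ X, ¬ Wrong V (r * k) (orc A0 G X) := fun X h =>
    hcon ⟨_, fun s hs => if_neg hs, h⟩
  set T : ℝ := (V.queries : ℝ) + 1 with hTd
  have hT0 : 0 < T := by positivity
  have key := sampler (fun (w : Fin V.p → Bool) Δ z =>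
      mass (orc A0 G Δ) V.gates (init V.q (Pi.single w 1)) (false :: List.ofFn z) / T)
    (fun w Δ z => div_nonneg (mass_nonneg _ _ _ _) hT0.le) (fun w Δ => by
      have h := sum_mass_basis hV (orc A0 G Δ) w
        (univ.image fun z : Fin (r * k) → Bool => false :: List.ofFn z)
      rw [sum_image enc_inj.injOn] at h
      rw [← sum_div, div_le_one hT0]
      linarith) O (η := 1 / (144 * T) / T) (by positivity) (by positivity) hup default
    (fun ω hω => by
      have hy : Yes (orc A0 G (O ω)) (r * k) := by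
        unfold Yes
        rw [part_orc_false, part_orc_true]
        exact ⟨⟨_, hω⟩, hO ω⟩
      obtain ⟨w, hw⟩ : ∃ w, 2 / 3 ≤ V.accProb (orc A0 G (O ω)) (Pi.single w 1) := by
        by_contra h
        push Not at h
        exact hc _ (Or.inl ⟨hy, h⟩)
      refine ⟨w, fun Δ hΔ hcard => ?_⟩
      have hno' : No (orc A0 G Δ) (r * k) := by
        unfold No
        rw [part_orc_false, part_orc_true]
        calc _ ≤ 2 ^ 2 * (2 ^ m * 2 ^ (r * (m + 1) * (B * 2 ^ d))) :=
              Nat.mul_le_mul (by norm_num) (Nat.mul_le_mul hcard hG)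
          _ ≤ _ := by
              rw [← pow_add, ← pow_add]
              exact Nat.pow_le_pow_right (by norm_num) (by omega)
      have h1 : V.accProb (orc A0 G Δ) (Pi.single w 1) ≤ 1 / 3 := by
        by_contra h
        exact hc _ (Or.inr ⟨hno', w, not_le.1 h⟩)
      have h2 := mass_ge hV (orc_agree A0 G hΔ) _ h1 hw
      rw [sum_image enc_inj.injOn] at h2
      rw [← sum_div]
      exact div_le_div_of_nonneg_right h2 hT0.le)
  set η : ℝ := 1 / (144 * T) / T with hη
  have hη0 : 0 < η := by positivity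
  have h1 : (2 / 3 : ℝ) ^ B * Real.exp (5 / 7 * (10 / 21) ^ d * ((k - 1) * m : ℕ)) ≤ η / 4 := by
    have e1 : Real.exp (1 / 10) ≤ 9 / 8 := by
      have := Real.exp_bound_div_one_sub_of_interval (x := 1 / 10) (by norm_num) (by norm_num)
      linarith
    have e2 : (576 * T ^ 2 * 3 ^ B : ℝ) ≤ 4 ^ B := by rw [hTd]; exact_mod_cast hT
    calc _ ≤ (2 / 3 : ℝ) ^ B * Real.exp (1 / 10) ^ B := by
          rw [← Real.exp_nat_mul]
          exact mul_le_mul_of_nonneg_left (Real.exp_le_exp.2 hρ) (by positivity)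
      _ ≤ (3 / 4) ^ B := by
          rw [← mul_pow]
          exact pow_le_pow_left₀ (by positivity) (by linarith) _
      _ ≤ _ := by
          rw [hη, div_pow, div_div, div_div, div_le_div_iff₀ (by positivity) (by positivity)]
          linarith
  have h2 : (1 / 2 : ℝ) ^ B * η ^ 2 ^ m ≤ 2 ^ V.p * (η / 4) ^ 2 ^ m := by
    calc _ ≤ (2 / 3 : ℝ) ^ B * η ^ 2 ^ m := mul_le_mul_of_nonneg_right
          (pow_le_pow_left₀ (by norm_num) (by norm_num) _) (by positivity)
      _ ≤ _ := mul_le_mul_of_nonneg_right (hlo default) (by positivity)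
      _ ≤ _ := key
      _ ≤ _ := by
          simp only [Fintype.card_pi, Fintype.card_bool, prod_const, card_univ, Fintype.card_fin,
            Nat.cast_pow, Nat.cast_ofNat]
          gcongr
  have h3 : (2 : ℝ) ^ (V.p + B) < 2 ^ (2 * 2 ^ m) := pow_lt_pow_right₀ (by norm_num) hp
  clear_value η
  rw [div_pow, div_pow, one_pow, div_mul_eq_mul_div, ← mul_div_assoc,
    div_le_div_iff₀ (by positivity) (by positivity), one_mul] at h2
  rw [pow_mul, pow_add, show (2 : ℝ) ^ 2 = 4 by norm_num] at h3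
  have h4 : 0 < η ^ 2 ^ m := by positivity
  nlinarith

lemma ten_mul_le {m : ℕ} (h : 6 ≤ m) : 10 * m ≤ 2 ^ m := by
  induction m, h using Nat.le_induction with
  | base => norm_num
  | succ m hm ih => rw [pow_succ]; omega

theorem finite_bound' (u : ℕ) (hu : 72 ≤ u) : ∃ N, u ≤ N ∧ ∀ V : Verifier, V.Valid →
    Nat.log 2 (V.queries + V.p + 1) ^ 33 ≤ N → ∀ A0 : List Bool → Bool,
    ∃ A : List Bool → Bool, (∀ s, s.length ≠ N + 1 → A s = A0 s) ∧ Wrong V N A := by
  obtain ⟨m, hm⟩ : ∃ m, m = 2 ^ u := ⟨_, rfl⟩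
  obtain ⟨d, hd⟩ : ∃ d, d = 29 * (u + 2) := ⟨_, rfl⟩
  obtain ⟨r, hr⟩ : ∃ r, r = 47 * u + 96 := ⟨_, rfl⟩
  obtain ⟨E, hE⟩ : ∃ E, E = 2 ^ d := ⟨_, rfl⟩
  have hum : u < m := hm ▸ Nat.lt_two_pow_self
  have hE0 : 1 ≤ E := hE ▸ Nat.one_le_two_pow
  have hmE : 1 ≤ m * E := Nat.mul_pos (by omega) hE0
  have hk : (m + 1) * (10 * m * E + 1) ≤ 22 * (m * (m * E)) := by
    calc _ ≤ (2 * m) * (11 * (m * E)) := Nat.mul_le_mul (by omega) (by rw [mul_assoc]; omega)
      _ = _ := by ring
  refine ⟨r * ((m + 1) * (10 * m * E + 1) + 1), ?_, fun V hV hc A0 => ?_⟩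
  · exact le_trans (by omega) (Nat.le_mul_of_pos_right r (Nat.succ_pos _))
  have hN : r * ((m + 1) * (10 * m * E + 1) + 1) < m ^ 33 := by
    have h1 : 1 ≤ m * (m * E) := Nat.mul_pos (by omega) hmE
    calc _ ≤ (2 ^ 7 * m) * (2 ^ 5 * (m * (m * E))) := Nat.mul_le_mul (by omega) (by omega)
      _ = 2 ^ (32 * u + 70) := by rw [hE, hd, hm]; ring
      _ < 2 ^ (u * 33) := Nat.pow_lt_pow_right (by norm_num) (by omega)
      _ = _ := by rw [hm, pow_mul]
  have hc2 : V.queries + V.p + 1 < 2 ^ m :=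
    Nat.lt_pow_of_log_lt (by norm_num) (lt_of_pow_lt_pow_left₀ 33 (Nat.zero_le _) (hc.trans_lt hN))
  have h10 := ten_mul_le (m := m) (by omega)
  refine finite_bound V hV A0 r _ m (10 * m) d (by omega) ?_ (by omega) ?_ ?_ ?_ ?_ (by omega)
  · have : 1 ≤ (m + 1) * (10 * m * E + 1) := Nat.mul_pos (by omega) (by omega)
    omega
  · calc 10 * m * 3 ^ d ≤ 2 ^ 4 * 2 ^ u * (2 ^ 46) ^ (u + 2) := by
          rw [hd, pow_mul, hm]
          exact Nat.mul_le_mul (by omega) (Nat.pow_le_pow_left (by norm_num) _)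
      _ = _ := by
          rw [hr, ← pow_mul, ← pow_add, ← pow_add]
          congr 1
          ring
  · rw [← hE]
    have h1 : 1 * (m + 2) ≤ r * (m + 2) := Nat.mul_le_mul_right _ (by omega)
    calc _ ≤ r * (m + 1) * (10 * m * E) + r * (m + 2) := by omega
      _ = _ := by ring
  · rw [Nat.add_sub_cancel]
    have h1 : (((m + 1) * (10 * m * E + 1) * m : ℕ) : ℝ) ≤ 22 * (m * (m * 2 ^ d)) * m := by
      have := Nat.mul_le_mul_right m hk
      rw [hE] at this ⊢
      exact_mod_cast this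
    have h2 : (10 / 21 : ℝ) ^ d * 2 ^ d * (16 * (m * m)) ≤ 1 := by
      have e : (16 * (m * m) : ℝ) = 4 ^ (u + 2) := by
        rw [hm, show (4 : ℝ) = 2 * 2 by norm_num, mul_pow]; push_cast; ring
      rw [e, ← mul_pow, hd, pow_mul, ← mul_pow]
      exact pow_le_one₀ (by positivity) (by norm_num)
    have h3 : (0 : ℝ) ≤ m := Nat.cast_nonneg _
    calc _ ≤ 5 / 7 * (10 / 21 : ℝ) ^ d * (22 * (m * (m * 2 ^ d)) * m) :=
          mul_le_mul_of_nonneg_left h1 (by positivity)
      _ = 55 / 56 * m * ((10 / 21 : ℝ) ^ d * 2 ^ d * (16 * (m * m))) := by ring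
      _ ≤ 55 / 56 * m * 1 := mul_le_mul_of_nonneg_left h2 (by positivity)
      _ ≤ _ := by push_cast; linarith
  · have h1 : 576 ≤ 4 ^ m := le_trans (by norm_num) (Nat.pow_le_pow_right (by norm_num)
      (by omega : 5 ≤ m))
    calc _ ≤ 4 ^ m * (2 ^ m) ^ 2 * 3 ^ (10 * m) :=
          Nat.mul_le_mul_right _ (Nat.mul_le_mul h1 (Nat.pow_le_pow_left (by omega) _))
      _ = (4 * 2 ^ 2 * 3 ^ 10) ^ m := by rw [mul_pow, mul_pow, pow_right_comm, pow_mul]
      _ ≤ (4 ^ 10) ^ m := Nat.pow_le_pow_left (by norm_num) _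
      _ = _ := (pow_mul _ _ _).symm

lemma run_congr {α : Type} [Fintype α] [DecidableEq α] (gs : List (Gate α)) :
    ∃ b : ℕ, ∀ A A' : List Bool → Bool, (∀ s, s.length < b → A s = A' s) →
      ∀ v, run A gs v = run A' gs v := by
  induction gs with
  | nil => exact ⟨0, fun _ _ _ _ => rfl⟩
  | cons g gs ih =>
    obtain ⟨b, hb⟩ := ih
    rcases g with U | ⟨l, t⟩
    · exact ⟨b, fun A A' h v => hb A A' h _⟩
    · refine ⟨max b (l.length + 1), fun A A' h v => ?_⟩
      rw [run_cons, run_cons, hb A A' fun s hs => h s (lt_max_of_lt_left hs)]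
      congr 1
      funext y
      simp only [act]
      rw [h _ (lt_max_of_lt_right (by simp))]

lemma part_congr {A A' : List Bool → Bool} {n : ℕ} (h : ∀ s, s.length = n + 1 → A s = A' s)
    (b : Bool) : part A n b = part A' n b :=
  filter_congr fun z _ => by rw [h _ (by simp)]

lemma Wrong.good {V : Verifier} {n : ℕ} {A : List Bool → Bool} (h : Wrong V n A) :
    Yes A n ∨ No A n := h.imp And.left And.left

lemma good_congr {A A' : List Bool → Bool} {n : ℕ} (h : ∀ s, s.length = n + 1 → A s = A' s)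
    (h' : Yes A' n ∨ No A' n) : Yes A n ∨ No A n := by
  unfold Yes No at h' ⊢
  rwa [part_congr h, part_congr h]

/-- Every length carries a positive or a negative instance. -/
def Good (A : List Bool → Bool) : Prop := ∀ n, Yes A n ∨ No A n

lemma stage (V : List Bool → Verifier) (hu : ∀ x, (V x).Valid)
    (hc : ∃ N0, ∀ x : List Bool, N0 ≤ x.length →
      Nat.log 2 ((V x).queries + (V x).p + 1) ^ 33 ≤ x.length)
    (A : List Bool → Bool) (b : ℕ) (hA : Good A) :
    ∃ (A' : List Bool → Bool) (b' : ℕ), Good A' ∧ b < b' ∧ (∀ s, s.length < b → A' s = A s) ∧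
      ∃ x : List Bool, ∀ A'' : List Bool → Bool, (∀ s, s.length < b' → A'' s = A' s) →
        Wrong (V x) x.length A'' := by
  obtain ⟨N0, hN0⟩ := hc
  obtain ⟨N, hN, h⟩ := finite_bound' (72 + N0 + b) (by omega)
  have hx : (List.replicate N false).length = N := List.length_replicate
  obtain ⟨A', h1, h2⟩ := h (V (List.replicate N false)) (hu _)
    (by have := hN0 (List.replicate N false) (by omega); rwa [hx] at this) A
  obtain ⟨c, hcc⟩ := run_congr (V (List.replicate N false)).gates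
  refine ⟨A', max c (N + 2), fun n => ?_, lt_max_of_lt_right (by omega),
    fun s hs => h1 s (by omega), List.replicate N false, fun A'' h3 => ?_⟩
  · by_cases hn : n = N
    · exact hn ▸ h2.good
    · exact good_congr (fun s hs => h1 s (by omega)) (hA n)
  · have h4 : ∀ s, s.length = N + 1 → A'' s = A' s :=
      fun s hs => h3 s (lt_max_of_lt_right (by omega))
    have h5 := hcc A'' A' fun s hs => h3 s (lt_max_of_lt_left hs)
    rw [hx]
    unfold Wrong Yes No at h2 ⊢
    simp only [accProb_eq, h5, part_congr h4] at h2 ⊢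
    exact h2

theorem diag (V : ℕ → List Bool → Verifier) (hu : ∀ k x, (V k x).Valid)
    (hc : ∀ k, ∃ N0, ∀ x : List Bool, N0 ≤ x.length →
      Nat.log 2 ((V k x).queries + (V k x).p + 1) ^ 33 ≤ x.length) :
    ∃ A : List Bool → Bool, Good A ∧ ∀ k, ∃ x : List Bool, Wrong (V k x) x.length A := by
  have step : ∀ k, ∀ z : {z : (List Bool → Bool) × ℕ // Good z.1},
      ∃ z' : {z : (List Bool → Bool) × ℕ // Good z.1}, z.1.2 < z'.1.2 ∧
      (∀ s, s.length < z.1.2 → z'.1.1 s = z.1.1 s) ∧ ∃ x : List Bool, ∀ A'' : List Bool → Bool,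
        (∀ s, s.length < z'.1.2 → A'' s = z'.1.1 s) → Wrong (V k x) x.length A'' := by
    intro k z
    obtain ⟨A', b', h1, h3, h4, h5⟩ := stage (V k) (hu k) (hc k) z.1.1 z.1.2 z.2
    exact ⟨⟨(A', b'), h1⟩, h3, h4, h5⟩
  choose nx n1 n2 n3 using step
  let σ : ℕ → {z : (List Bool → Bool) × ℕ // Good z.1} := fun k =>
    Nat.rec ⟨(fun _ => false, 0), fun _ => Or.inr (by simp [No, part])⟩ (fun k z => nx k z) k
  have hs : ∀ k, σ (k + 1) = nx k (σ k) := fun _ => rfl
  have mono : StrictMono fun k => (σ k).1.2 := strictMono_nat_of_lt_succ fun k => n1 k (σ k)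
  have stab : ∀ j k s, j ≤ k → s.length < (σ j).1.2 → (σ k).1.1 s = (σ j).1.1 s := by
    intro j k s hjk hm
    induction k, hjk using Nat.le_induction with
    | base => rfl
    | succ k hjk ih => rw [hs, n2 k (σ k) s (hm.trans_le (mono.monotone hjk)), ih]
  refine ⟨fun s => (σ (s.length + 1)).1.1 s, fun n =>
    good_congr (fun s h => by rw [h]) ((σ (n + 1 + 1)).2 n), fun k => ?_⟩
  obtain ⟨x, hx⟩ := n3 k (σ k)
  refine ⟨x, hx _ fun s hm => ?_⟩
  rw [← hs] at hm ⊢
  have h1 : s.length < (σ (s.length + 1)).1.2 :=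
    lt_of_lt_of_le (Nat.lt_succ_self _) (mono.le_apply (x := s.length + 1))
  rcases le_total (s.length + 1) (k + 1) with h | h
  · exact (stab _ _ s h h1).symm
  · exact stab _ _ s h hm

lemma accProb_le_one {V : Verifier} (hV : V.Valid) (A : List Bool → Bool)
    (w : (Fin V.p → Bool) → ℂ) (hw : IsState w) : V.accProb A w ≤ 1 := by
  have h1 : nsq (run A V.gates (init V.q w)) = 1 := by
    rw [← nr_sq, nr_run A _ hV.gv, nr_sq, nsq_init]
    exact hw
  rw [accProb_eq, ← h1]
  exact sum_le_sum_of_subset_of_nonneg (subset_univ _) fun _ _ _ => sq_nonneg _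

lemma not_yes_of_no {A : List Bool → Bool} {n : ℕ} (h : No A n) : ¬ Yes A n := fun hy => by
  have h1 := test_yes hy _ rfl
  have h2 := test_no h _ (isState_subset hy.1)
  linarith

end Pool.Agent.MP_36f78e_lc.H24.Cl
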